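import Pool.Agent.Y679.Md.J

/-! The modified Szpiro inequality for all quadratic twists of almost all fibres (helper679). -/

set_option autoImplicit false

namespace Pool.Agent.Y679.Md

open Finset Polynomial
open Pool.Agent.H39R3 (GMin condW)
open Pool.Agent.Y670.RD
open Pool.Agent.Y679.Kf (rd rd_pos fin_card)

/-- the inequality with exponent `κ` for all quadratic twists of the fibre -/
def UpF (n : ℕ) (a b : ℤ[X]) (κ : ℝ) (P : ℤ × ℤ) : Prop :=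
  ∀ (W : WeierstrassCurve ℤ) (u : ℚ), GMin W → (W.c₄ : ℚ) = u ^ 2 * (fv (2 * n) a P.1 P.2 : ℤ) →
    (W.c₆ : ℚ) = u ^ 3 * (fv (3 * n) b P.1 P.2 : ℤ) →
    max (|(W.c₄ : ℝ)| ^ 3) ((W.c₆ : ℝ) ^ 2) ≤ (condW W : ℝ) ^ κ

/-- the opposite inequality for some quadratic twist of the fibre -/
def ShF (n : ℕ) (a b : ℤ[X]) (κ : ℝ) (P : ℤ × ℤ) : Prop :=
  ∃ (W : WeierstrassCurve ℤ) (u : ℚ), GMin W ∧ (W.c₄ : ℚ) = u ^ 2 * (fv (2 * n) a P.1 P.2 : ℤ) ∧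
    (W.c₆ : ℚ) = u ^ 3 * (fv (3 * n) b P.1 P.2 : ℤ) ∧
    (condW W : ℝ) ^ κ ≤ max (|(W.c₄ : ℝ)| ^ 3) ((W.c₆ : ℝ) ^ 2)

theorem deg_three {n : ℕ} {a b g : ℤ[X]} (h : Fam n a b g) : ∃ d : ℕ, g.natDegree = d + 3 := by
  have h1 := h.dav
  have h2 := h.hn
  exact ⟨g.natDegree - 3, by omega⟩

theorem fam_main {n : ℕ} {a b g : ℤ[X]} (h : Fam n a b g) (hsp : (toQ g).Splits) (ε : ℝ)
    (hε : 0 < ε) : ∃ ν C : ℝ, 0 < ν ∧ 0 < C ∧ ∀ X : ℝ, 1 ≤ X →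
      {P : ℤ × ℤ | P ∈ Pts g X ∧ ¬ (UpF n a b (3 + 3 * (n : ℝ) / (g.natDegree : ℝ) + ε) P ∧
        ShF n a b (3 + 3 * (n : ℝ) / (g.natDegree : ℝ) - ε) P)}.Finite ∧
      ({P : ℤ × ℤ | P ∈ Pts g X ∧ ¬ (UpF n a b (3 + 3 * (n : ℝ) / (g.natDegree : ℝ) + ε) P ∧
        ShF n a b (3 + 3 * (n : ℝ) / (g.natDegree : ℝ) - ε) P)}.ncard : ℝ) ≤
        C * X ^ (2 / (g.natDegree : ℝ) - ν) := by
  obtain ⟨d, hd⟩ := deg_three h
  obtain ⟨ε1, M1, hε1, h1⟩ := upper h ε hε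
  obtain ⟨ε2, M2, hε2, h2⟩ := lower h ε hε
  obtain ⟨⟨c0, C0, X0, -, -, hfin, -⟩, hcnt⟩ := count_main hd h.hsq hsp
  obtain ⟨ν, C, hν, -, hC, hb⟩ := hcnt (min ε1 ε2) (max M1 M2) (lt_min hε1 hε2)
  refine ⟨ν, C, hν, hC, fun X hX => ?_⟩
  have hfX := (hfin X hX).1
  refine ⟨hfX.subset fun P hP => hP.1, ?_⟩
  refine le_trans ?_ (hb X hX)
  refine Nat.cast_le.mpr (Set.ncard_le_ncard ?_ (hfX.subset fun P hP => hP.1))
  rintro P ⟨hP, hn⟩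
  refine ⟨hP, fun hgood => hn ?_⟩
  obtain ⟨k1, k2⟩ := hgood
  have hm := mx_one hP.1
  have e1 : mx P.1 P.2 ^ ((g.natDegree : ℝ) - ε1) ≤ mx P.1 P.2 ^ ((g.natDegree : ℝ) - min ε1 ε2) :=
    Real.rpow_le_rpow_of_exponent_le hm (by linarith [min_le_left ε1 ε2])
  have e2 : mx P.1 P.2 ^ ((g.natDegree : ℝ) - ε2) ≤ mx P.1 P.2 ^ ((g.natDegree : ℝ) - min ε1 ε2) :=
    Real.rpow_le_rpow_of_exponent_le hm (by linarith [min_le_right ε1 ε2])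
  constructor
  · intro W u hW h4 h6
    exact h1 P.1 P.2 hP.1 ((le_max_left _ _).trans k1) (e1.trans k2) W u hW h4 h6
  · exact h2 P.1 P.2 hP.1 hP.2.1 ((le_max_right _ _).trans k1) (e2.trans k2)

/-! ### all elliptic curves -/

/-- the radical of the invariant -/
def radj (j : ℚ) : ℕ := rd (j.num.natAbs * (j.num - 1728 * j.den).natAbs * j.den)

/-- the invariants -/
def IV (X : ℝ) : Set ℚ := {j | j ≠ 0 ∧ j ≠ 1728 ∧ (radj j : ℝ) ≤ X}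

/-- the inequality for all curves of invariant `j` -/
def UpJ (κ : ℝ) (j : ℚ) : Prop :=
  ∀ W : WeierstrassCurve ℤ, GMin W → (W.c₄ : ℚ) ^ 3 / W.Δ = j →
    max (|(W.c₄ : ℝ)| ^ 3) ((W.c₆ : ℝ) ^ 2) ≤ (condW W : ℝ) ^ κ

/-- the opposite inequality for some curve of invariant `j` -/
def ShJ (κ : ℝ) (j : ℚ) : Prop :=
  ∃ W : WeierstrassCurve ℤ, GMin W ∧ (W.c₄ : ℚ) ^ 3 / W.Δ = j ∧
    (condW W : ℝ) ^ κ ≤ max (|(W.c₄ : ℝ)| ^ 3) ((W.c₆ : ℝ) ^ 2)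

/-- the point of an invariant -/
def pt (j : ℚ) : ℤ × ℤ := (j.num, j.den - j.num)

theorem pt_inj : Function.Injective pt := by
  intro j j' h
  unfold pt at h
  rw [Prod.mk.injEq] at h
  have h1 : (j.den : ℤ) = j'.den := by
    have := h.2
    rw [h.1] at this
    linarith
  exact Rat.ext h.1 (by exact_mod_cast h1)

theorem two_x {j : ℚ} (h0 : j ≠ 0) : (j.num : ℚ) ≠ 0 := by exact_mod_cast Rat.num_ne_zero.mpr h0

theorem tw_x {j : ℚ} (h1 : j ≠ 1728) : (j.num : ℚ) - 1728 * j.den ≠ 0 := by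
  intro h
  apply h1
  have hd : (j.den : ℚ) ≠ 0 := by exact_mod_cast j.den_nz
  rw [← Rat.num_div_den j, div_eq_iff hd]
  linarith

theorem pt_mem {j : ℚ} {X : ℝ} (hj : j ∈ IV X) : pt j ∈ Pts gJ X := by
  obtain ⟨h0, h1, hX⟩ := hj
  have e : fv gJ.natDegree gJ (pt j).1 (pt j).2 = -(j.num * (j.num - 1728 * j.den) * j.den) := by
    rw [fv_gJ]
    unfold pt
    ring
  have n0 : j.num ≠ 0 := Rat.num_ne_zero.mpr h0
  have n1 : j.num - 1728 * (j.den : ℤ) ≠ 0 := by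
    have := tw_x h1
    exact_mod_cast this
  have n2 : (j.den : ℤ) ≠ 0 := by exact_mod_cast j.den_nz
  refine ⟨?_, ?_, ?_⟩
  · unfold pt
    have h2 : IsCoprime j.num (j.den : ℤ) := by
      rw [Int.isCoprime_iff_nat_coprime]
      simpa using j.reduced
    obtain ⟨x, y, hxy⟩ := h2
    exact ⟨x + y, y, by simp only; linear_combination hxy⟩
  · rw [e]
    exact neg_ne_zero.mpr (mul_ne_zero (mul_ne_zero n0 n1) n2)
  · rw [e, Int.natAbs_neg, Int.natAbs_mul, Int.natAbs_mul, Int.natAbs_natCast]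
    exact hX

/-- a curve of invariant `j` is a twist of the fibre -/
theorem tw_of {j : ℚ} (h0 : j ≠ 0) (h1 : j ≠ 1728) {W : WeierstrassCurve ℤ} (hΔ : W.Δ ≠ 0)
    (hj : (W.c₄ : ℚ) ^ 3 / W.Δ = j) : ∃ u : ℚ,
      (W.c₄ : ℚ) = u ^ 2 * (fv (2 * 1) aJ (pt j).1 (pt j).2 : ℤ) ∧
      (W.c₆ : ℚ) = u ^ 3 * (fv (3 * 1) bJ (pt j).1 (pt j).2 : ℤ) := by
  have hs := two_x h0
  have ht := tw_x h1
  have hd : (j.den : ℚ) ≠ 0 := by exact_mod_cast j.den_nz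
  have hD : (W.Δ : ℚ) ≠ 0 := by exact_mod_cast hΔ
  have hrel : (1728 : ℚ) * W.Δ = (W.c₄ : ℚ) ^ 3 - (W.c₆ : ℚ) ^ 2 := by exact_mod_cast W.c_relation
  have hj1 : (W.c₄ : ℚ) ^ 3 * j.den = j.num * W.Δ := by
    have h2 : (W.c₄ : ℚ) ^ 3 = j * W.Δ := by rw [← hj]; field_simp
    have h3 := Rat.mul_den_eq_num j
    rw [h2, ← h3]; ring
  have hj2 : (W.c₆ : ℚ) ^ 2 * j.den = (j.num - 1728 * j.den) * W.Δ := by
    linear_combination hj1 + (j.den : ℚ) * hrel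
  have hc4 : (W.c₄ : ℚ) ≠ 0 := by
    intro h
    rw [h, zero_pow (by norm_num), zero_mul] at hj1
    exact mul_ne_zero hs hD hj1.symm
  have hkey : (W.c₆ : ℚ) ^ 2 * j.num = (j.num - 1728 * j.den) * (W.c₄ : ℚ) ^ 3 := by
    have h2 : ((W.c₆ : ℚ) ^ 2 * j.num) * j.den =
        ((j.num - 1728 * j.den) * (W.c₄ : ℚ) ^ 3) * j.den := by
      linear_combination (j.num : ℚ) * hj2 - ((j.num : ℚ) - 1728 * j.den) * hj1
    exact mul_right_cancel₀ hd h2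
  refine ⟨(W.c₆ : ℚ) / (W.c₄ * (j.num - 1728 * j.den)), ?_, ?_⟩
  · rw [fv_aJ]
    unfold pt
    push_cast
    have e : -((j.num : ℚ) * (1727 * j.num + 1728 * (j.den - j.num))) =
        j.num * (j.num - 1728 * j.den) := by ring
    rw [e]
    field_simp
    linear_combination -hkey
  · rw [fv_bJ]
    unfold pt
    push_cast
    have e : (j.num : ℚ) * (1727 * j.num + 1728 * (j.den - j.num)) ^ 2 =
        j.num * (j.num - 1728 * j.den) ^ 2 := by ring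
    rw [e]
    field_simp
    linear_combination (-(W.c₆ : ℚ)) * hkey

/-- a twist of the fibre has invariant `j` -/
theorem inv_of {j : ℚ} (h0 : j ≠ 0) (h1 : j ≠ 1728) {W : WeierstrassCurve ℤ} (hΔ : W.Δ ≠ 0)
    {u : ℚ} (h4 : (W.c₄ : ℚ) = u ^ 2 * (fv (2 * 1) aJ (pt j).1 (pt j).2 : ℤ))
    (h6 : (W.c₆ : ℚ) = u ^ 3 * (fv (3 * 1) bJ (pt j).1 (pt j).2 : ℤ)) :
    (W.c₄ : ℚ) ^ 3 / W.Δ = j := by
  have hs := two_x h0
  have ht := tw_x h1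
  have hd : (j.den : ℚ) ≠ 0 := by exact_mod_cast j.den_nz
  have hD : (W.Δ : ℚ) ≠ 0 := by exact_mod_cast hΔ
  have hrel : (1728 : ℚ) * W.Δ = (W.c₄ : ℚ) ^ 3 - (W.c₆ : ℚ) ^ 2 := by exact_mod_cast W.c_relation
  rw [fv_aJ] at h4
  rw [fv_bJ] at h6
  unfold pt at h4 h6
  push_cast at h4 h6
  have h4' : (W.c₄ : ℚ) = u ^ 2 * (j.num * (j.num - 1728 * j.den)) := by rw [h4]; ring
  have h6' : (W.c₆ : ℚ) = u ^ 3 * (j.num * (j.num - 1728 * j.den) ^ 2) := by rw [h6]; ring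
  have h2 : (W.Δ : ℚ) = u ^ 6 * (j.num ^ 2 * (j.num - 1728 * j.den) ^ 3 * j.den) := by
    have h3 : (1728 : ℚ) * W.Δ =
        1728 * (u ^ 6 * (j.num ^ 2 * (j.num - 1728 * j.den) ^ 3 * j.den)) := by
      rw [hrel, h4', h6']; ring
    exact mul_left_cancel₀ (by norm_num) h3
  rw [div_eq_iff hD, h4', h2]
  conv_rhs => rw [← Rat.num_div_den j]
  have e : ((j.num : ℚ) / j.den).num = j.num := by rw [Rat.num_div_den]
  have e' : ((j.num : ℚ) / j.den).den = j.den := by rw [Rat.num_div_den]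
  rw [e, e']
  field_simp

theorem j_main (ε : ℝ) (hε : 0 < ε) : ∃ ν C : ℝ, 0 < ν ∧ 0 < C ∧ ∀ X : ℝ, 1 ≤ X →
    {j : ℚ | j ∈ IV X ∧ ¬ (UpJ (4 + ε) j ∧ ShJ (4 - ε) j)}.Finite ∧
    ({j : ℚ | j ∈ IV X ∧ ¬ (UpJ (4 + ε) j ∧ ShJ (4 - ε) j)}.ncard : ℝ) ≤
      C * X ^ ((2 : ℝ) / 3 - ν) := by
  obtain ⟨ν, C, hν, hC, h⟩ := fam_main famJ gJ_splits ε hε
  refine ⟨ν, C, hν, hC, fun X hX => ?_⟩
  obtain ⟨hfin, hcard⟩ := h X hX
  rw [gJ_deg] at hcard hfin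
  have e3 : (2 : ℝ) / ((3 : ℕ) : ℝ) = 2 / 3 := by norm_num
  rw [e3] at hcard
  have e4 : (3 : ℝ) + 3 * ((1 : ℕ) : ℝ) / ((3 : ℕ) : ℝ) = 4 := by norm_num
  rw [e4] at hcard hfin
  have hmaps : ∀ j ∈ {j : ℚ | j ∈ IV X ∧ ¬ (UpJ (4 + ε) j ∧ ShJ (4 - ε) j)}, pt j ∈
      {P : ℤ × ℤ | P ∈ Pts gJ X ∧ ¬ (UpF 1 aJ bJ (4 + ε) P ∧ ShF 1 aJ bJ (4 - ε) P)} := by
    rintro j ⟨hj, hn⟩
    refine ⟨pt_mem hj, fun hg => hn ⟨?_, ?_⟩⟩
    · intro W hW hjW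
      obtain ⟨u, h4, h6⟩ := tw_of hj.1 hj.2.1 hW.1 hjW
      exact hg.1 W u hW h4 h6
    · obtain ⟨W, u, hW, h4, h6, hle⟩ := hg.2
      exact ⟨W, hW, inv_of hj.1 hj.2.1 hW.1 h4 h6, hle⟩
  refine ⟨Set.Finite.of_finite_image (hfin.subset (Set.image_subset_iff.mpr hmaps))
    pt_inj.injOn, le_trans ?_ hcard⟩
  exact Nat.cast_le.mpr (Set.ncard_le_ncard_of_injOn pt hmaps pt_inj.injOn hfin)

end Pool.Agent.Y679.Md
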