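import Pool.Agent.Y679.Md.Up

/-! The upper bound for all quadratic twists of a good fibre (helper679). -/

set_option autoImplicit false

namespace Pool.Agent.Y679.Md

open Finset Polynomial
open Pool.Agent.H925R.Szpiro (D IsMin condS)
open Pool.Agent.H39R3 (GMin condW cond_le condW_pos)
open Pool.Agent.Y670.RD
open Pool.Agent.Y679.Kf (rd rd_pos)

/-- the bad primes of a family -/
def SS (g : ℤ[X]) (m1 m2 m3 : ℤ) : Finset ℕ :=
  {2, 3} ∪ g.leadingCoeff.natAbs.primeFactors ∪ m1.natAbs.primeFactors ∪ m2.natAbs.primeFactors ∪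
    m3.natAbs.primeFactors

theorem SS_prime (g : ℤ[X]) (m1 m2 m3 : ℤ) : ∀ p ∈ SS g m1 m2 m3, p.Prime := by
  intro p hp
  simp only [SS, mem_union, mem_insert, mem_singleton] at hp
  rcases hp with ((((rfl | rfl) | hp) | hp) | hp) | hp
  · exact Nat.prime_two
  · exact Nat.prime_three
  · exact Nat.prime_of_mem_primeFactors hp
  · exact Nat.prime_of_mem_primeFactors hp
  · exact Nat.prime_of_mem_primeFactors hp
  · exact Nat.prime_of_mem_primeFactors hp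

theorem SS_bad (g : ℤ[X]) (m1 m2 m3 : ℤ) : BadS g.leadingCoeff m1 m2 (SS g m1 m2 m3) := by
  refine ⟨by simp [SS], by simp [SS], ?_, ?_, ?_⟩
  · intro p hp; simp only [SS, mem_union]; tauto
  · intro p hp; simp only [SS, mem_union]; tauto
  · intro p hp; simp only [SS, mem_union]; tauto

/-- the radical outside `S` and the conductor -/
theorem rS_cond {a1 b1 A B N G lc m1 m2 : ℤ} {Q : ℕ} {s t : ℤ}
    (h : Dat a1 b1 A B N G lc m1 m2 Q s t) {S : Finset ℕ} (hlc : lc ≠ 0) (hm1 : m1 ≠ 0)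
    (hm2 : m2 ≠ 0) (hS : BadS lc m1 m2 S) :
    rS S G.natAbs ≤ condS a1 b1 * excess S G.natAbs := by
  have h1 := (h.piQ hlc hm1 hm2 hS).2
  have h2 := h.Rcond hS.1 hS.2.1
  have hsplit : rS S G.natAbs = (∏ p ∈ (G.natAbs.primeFactors \ S).filter
      (fun p : ℕ => (p : ℤ) ∣ D a1 b1), p) * (∏ p ∈ (G.natAbs.primeFactors \ S).filter
      (fun p : ℕ => ¬ (p : ℤ) ∣ D a1 b1), p) := by
    unfold rS
    rw [prod_filter_mul_prod_filter_not]
  rw [hsplit]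
  exact Nat.mul_le_mul h2 h1

/-- the size of the coefficients of `g` -/
noncomputable def cf (g : ℤ[X]) : ℝ := 1 + ∑ i ∈ range (g.natDegree + 1), |(g.coeff i : ℝ)|

theorem cf_one (g : ℤ[X]) : 1 ≤ cf g := by
  unfold cf
  have : 0 ≤ ∑ i ∈ range (g.natDegree + 1), |(g.coeff i : ℝ)| :=
    sum_nonneg fun _ _ => abs_nonneg _
  linarith

theorem fv_cf (g : ℤ[X]) (s t : ℤ) (hst : IsCoprime s t) :
    |(fv g.natDegree g s t : ℝ)| ≤ cf g * mx s t ^ g.natDegree := by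
  refine (fv_le g.natDegree g s t).trans ?_
  have h1 : (0 : ℝ) ≤ mx s t ^ g.natDegree := by
    have := mx_one hst
    positivity
  show _ * mx s t ^ g.natDegree ≤ _
  refine mul_le_mul_of_nonneg_right ?_ h1
  unfold cf
  linarith

/-- logarithmic sizes: the excess -/
theorem log_excess {g : ℤ[X]} {S : Finset ℕ} (hS : ∀ p ∈ S, p.Prime) {s t : ℤ}
    (hst : IsCoprime s t) (hG : fv g.natDegree g s t ≠ 0) {ε' : ℝ}
    (hr : mx s t ^ ((g.natDegree : ℝ) - ε') ≤ (rd (fv g.natDegree g s t).natAbs : ℝ)) :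
    ((g.natDegree : ℝ) - ε') * Real.log (mx s t) - Real.log (∏ p ∈ S, p : ℕ) ≤
      Real.log (rS S (fv g.natDegree g s t).natAbs) ∧
    Real.log (excess S (fv g.natDegree g s t).natAbs) ≤
      Real.log (cf g) + Real.log (∏ p ∈ S, p : ℕ) + ε' * Real.log (mx s t) := by
  obtain ⟨G, hGd⟩ : ∃ G : ℤ, G = fv g.natDegree g s t := ⟨_, rfl⟩
  have hcf := fv_cf g s t hst
  rw [← hGd] at hG hr hcf ⊢
  have hM := mx_one hst
  have hM0 : 0 < mx s t := by linarith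
  have hm0 : G.natAbs ≠ 0 := Int.natAbs_ne_zero.mpr hG
  have hpS : (0 : ℝ) < ((∏ p ∈ S, p : ℕ) : ℝ) := by exact_mod_cast pS_pos S hS
  have hrS : (0 : ℝ) < (rS S G.natAbs : ℝ) := by exact_mod_cast rS_pos S G.natAbs
  have hX : (0 : ℝ) < (excess S G.natAbs : ℝ) := by exact_mod_cast excess_pos S G.natAbs
  have h1 : ((g.natDegree : ℝ) - ε') * Real.log (mx s t) ≤
      Real.log (∏ p ∈ S, p : ℕ) + Real.log (rS S G.natAbs) := by
    rw [← Real.log_rpow hM0, ← Real.log_mul hpS.ne' hrS.ne']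
    refine Real.log_le_log (by positivity) (hr.trans ?_)
    exact_mod_cast rd_le_rS S hS G.natAbs
  have h2 : Real.log (rS S G.natAbs) + Real.log (excess S G.natAbs) ≤
      Real.log (cf g) + (g.natDegree : ℝ) * Real.log (mx s t) := by
    have hcf1 := cf_one g
    have hG1 : (0 : ℝ) < |(G : ℝ)| := abs_pos.mpr (by exact_mod_cast hG)
    rw [← Real.log_mul hrS.ne' hX.ne', ← Real.log_pow, ← Real.log_mul (by positivity) (by positivity)]
    refine Real.log_le_log (by positivity) ?_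
    refine le_trans ?_ hcf
    have h3 : ((rS S G.natAbs * excess S G.natAbs : ℕ) : ℝ) ≤ (G.natAbs : ℝ) := by
      exact_mod_cast rS_excess (S := S) hm0
    rw [Nat.cast_natAbs, Int.cast_abs] at h3
    push_cast at h3
    exact h3
  constructor
  · linarith
  · linarith

/-- **upper bound** -/
theorem upper {n : ℕ} {a b g : ℤ[X]} (h : Fam n a b g) (ε : ℝ) (hε : 0 < ε) :
    ∃ ε' M0 : ℝ, 0 < ε' ∧ ∀ s t : ℤ, IsCoprime s t → M0 ≤ mx s t →
      mx s t ^ ((g.natDegree : ℝ) - ε') ≤ (rd (fv g.natDegree g s t).natAbs : ℝ) →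
      ∀ (W : WeierstrassCurve ℤ) (u : ℚ), GMin W →
        (W.c₄ : ℚ) = u ^ 2 * (fv (2 * n) a s t : ℤ) →
        (W.c₆ : ℚ) = u ^ 3 * (fv (3 * n) b s t : ℤ) →
        max (|(W.c₄ : ℝ)| ^ 3) ((W.c₆ : ℝ) ^ 2) ≤
          (condW W : ℝ) ^ (3 + 3 * (n : ℝ) / (g.natDegree : ℝ) + ε) := by
  have hdav := h.dav
  have hn1 : (1 : ℝ) ≤ n := by exact_mod_cast h.hn
  obtain ⟨γ, hγ⟩ : ∃ γ : ℝ, γ = (g.natDegree : ℝ) := ⟨_, rfl⟩
  have hγn : (n : ℝ) + 2 ≤ γ := by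
    have : ((n + 2 : ℕ) : ℝ) ≤ g.natDegree := by exact_mod_cast hdav
    push_cast at this
    rw [hγ]; exact this
  have hγ0 : 0 < γ := by linarith
  obtain ⟨m1, m2, hm1, hm2, hdat⟩ := h.dat
  have hg0 : g ≠ 0 := by
    rintro rfl
    simp at hdav
  have hlc : g.leadingCoeff ≠ 0 := leadingCoeff_ne_zero.mpr hg0
  obtain ⟨S, hS⟩ : ∃ S : Finset ℕ, S = SS g m1 m2 1 := ⟨_, rfl⟩
  have hSp : ∀ p ∈ S, p.Prime := by rw [hS]; exact SS_prime g m1 m2 1
  have hBad : BadS g.leadingCoeff m1 m2 S := by rw [hS]; exact SS_bad g m1 m2 1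
  obtain ⟨δ, hδ⟩ : ∃ δ : ℝ, δ = ε / 24 := ⟨_, rfl⟩
  have hδ0 : 0 < δ := by rw [hδ]; positivity
  obtain ⟨θ, hθ⟩ : ∃ θ : ℝ, θ = 3 + 3 * (n : ℝ) / γ := ⟨_, rfl⟩
  have hθ0 : 0 < θ := by rw [hθ]; positivity
  obtain ⟨ε1, hε1⟩ : ∃ ε1 : ℝ, ε1 = γ - (n : ℝ) / ((n : ℝ) / γ + δ) := ⟨_, rfl⟩
  have hε10 : 0 < ε1 := by
    have h1 : (n : ℝ) / ((n : ℝ) / γ + δ) < n / ((n : ℝ) / γ) :=
      div_lt_div_of_pos_left (by linarith) (by positivity) (by linarith)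
    have h2 : (n : ℝ) / ((n : ℝ) / γ) = γ := by field_simp
    linarith
  obtain ⟨ε', hε'⟩ : ∃ ε' : ℝ, ε' = min (min ε1 (γ / 4)) (ε * γ / (8 * (θ + ε / 2))) := ⟨_, rfl⟩
  have hε'0 : 0 < ε' := by
    rw [hε']
    exact lt_min (lt_min hε10 (by positivity)) (by positivity)
  have k1 : ε' ≤ ε1 := by rw [hε']; exact (min_le_left _ _).trans (min_le_left _ _)
  have k2 : ε' ≤ γ / 4 := by rw [hε']; exact (min_le_left _ _).trans (min_le_right _ _)
  have k3 : (θ + ε / 2) * ε' ≤ ε * γ / 8 := by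
    have h1 : ε' ≤ ε * γ / (8 * (θ + ε / 2)) := by rw [hε']; exact min_le_right _ _
    rw [le_div_iff₀ (by positivity)] at h1
    linarith
  obtain ⟨pS, hpS⟩ : ∃ pS : ℝ, pS = ((∏ p ∈ S, p : ℕ) : ℝ) := ⟨_, rfl⟩
  have hpS1 : 1 ≤ pS := by rw [hpS]; exact_mod_cast pS_pos S hSp
  have hpS0 : 0 < pS := by linarith
  obtain ⟨C, hC, hkey⟩ := key h S hSp hm1 hm2 hBad pS⁻¹ δ (by positivity) hδ0
  obtain ⟨c1, hc1⟩ : ∃ c1 : ℝ, c1 = Real.log (cf g) + Real.log pS := ⟨_, rfl⟩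
  have hcf := cf_one g
  have hlcf : 0 ≤ Real.log (cf g) := Real.log_nonneg hcf
  have hlpS : 0 ≤ Real.log pS := Real.log_nonneg hpS1
  have hc10 : 0 ≤ c1 := by rw [hc1]; linarith
  obtain ⟨μ0, hμ0⟩ : ∃ μ0 : ℝ, μ0 = 8 * (|Real.log C| + (θ + 3 * ε / 2) * c1) / (ε * γ) := ⟨_, rfl⟩
  refine ⟨ε', Real.exp μ0, hε'0, fun s t hst hM0 hr W u hW h4 h6 => ?_⟩
  obtain ⟨a1, b1, N, Q, hd, hcond, g4, g6⟩ := hdat W hW s t u hst h4 h6
  have hG0 : fv g.natDegree g s t ≠ 0 := hd.hG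
  have hM1 := mx_one hst
  have hMpos : 0 < mx s t := by linarith
  obtain ⟨μ, hμ⟩ : ∃ μ : ℝ, μ = Real.log (mx s t) := ⟨_, rfl⟩
  have hμ0' : 0 ≤ μ := by rw [hμ]; exact Real.log_nonneg hM1
  have hμ1 : μ0 ≤ μ := by rw [hμ]; exact (Real.le_log_iff_exp_le hMpos).mpr hM0
  obtain ⟨l1, l2⟩ := log_excess (S := S) hSp hst hG0 hr
  rw [← hpS, ← hμ, ← hγ] at l1
  rw [← hpS, ← hμ, ← hc1] at l2
  have hrSpos : (0 : ℝ) < (rS S (fv g.natDegree g s t).natAbs : ℝ) := by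
    exact_mod_cast rS_pos S _
  have hXpos : (1 : ℝ) ≤ (excess S (fv g.natDegree g s t).natAbs : ℝ) := by
    exact_mod_cast excess_pos S _
  have hKX := rS_cond hd hlc hm1 hm2 hBad
  have hKn : 1 ≤ condS a1 b1 := by
    rcases Nat.eq_zero_or_pos (condS a1 b1) with h0 | h0
    · rw [h0, zero_mul] at hKX
      have := rS_pos S (fv g.natDegree g s t).natAbs
      omega
    · exact h0
  have hK1 : (1 : ℝ) ≤ condS a1 b1 := by exact_mod_cast hKn
  have hK0 : (0 : ℝ) < condS a1 b1 := by linarith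
  -- the hypothesis of `key`
  have hyp : pS⁻¹ * mx s t ^ ((n : ℝ) / ((n : ℝ) / (g.natDegree : ℝ) + δ)) ≤
      (rS S (fv g.natDegree g s t).natAbs : ℝ) := by
    rw [inv_mul_le_iff₀ hpS0]
    have h1 : mx s t ^ ((n : ℝ) / ((n : ℝ) / (g.natDegree : ℝ) + δ)) ≤
        mx s t ^ ((g.natDegree : ℝ) - ε') := by
      refine Real.rpow_le_rpow_of_exponent_le hM1 ?_
      rw [← hγ]
      linarith
    refine (h1.trans hr).trans ?_
    rw [hpS]
    exact_mod_cast rd_le_rS S hSp _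
  have hfin := hkey a1 b1 N Q s t W.c₄ W.c₆ hd g4 g6 hyp
  refine hfin.trans ?_
  rw [← hγ, ← hθ]
  obtain ⟨k, hk⟩ : ∃ k : ℝ, k = Real.log (condS a1 b1) := ⟨_, rfl⟩
  obtain ⟨x, hx⟩ : ∃ x : ℝ, x = Real.log (excess S (fv g.natDegree g s t).natAbs) := ⟨_, rfl⟩
  rw [← hx] at l2
  have l3 : Real.log (rS S (fv g.natDegree g s t).natAbs) ≤ k + x := by
    rw [hk, hx, ← Real.log_mul hK0.ne' (by linarith)]
    refine Real.log_le_log hrSpos ?_
    exact_mod_cast hKX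
  have hcW : (condS a1 b1 : ℝ) ^ (θ + ε) ≤ (condW W : ℝ) ^ (θ + ε) :=
    Real.rpow_le_rpow hK0.le (by exact_mod_cast hcond) (by positivity)
  refine le_trans ?_ hcW
  rw [← Real.log_le_log_iff (by positivity) (by positivity), Real.log_rpow hK0,
    Real.log_mul hC.ne' (by positivity), Real.log_rpow (by positivity),
    Real.log_mul hK0.ne' (by linarith), ← hk, ← hx]
  have hδ12 : 12 * δ = ε / 2 := by rw [hδ]; ring
  rw [hδ12]
  -- `log C + (θ + ε/2) (k + x) ≤ (θ + ε) k`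
  have e1 : γ / 2 * μ - 2 * c1 ≤ k := by
    have h1 : Real.log pS ≤ c1 := by rw [hc1]; linarith
    have h2 : ε' * μ ≤ γ / 4 * μ := mul_le_mul_of_nonneg_right k2 hμ0'
    nlinarith
  have e2 : |Real.log C| + (θ + 3 * ε / 2) * c1 ≤ ε * γ / 8 * μ := by
    rw [hμ0, div_le_iff₀ (by positivity)] at hμ1
    linarith
  have e3 : (θ + ε / 2) * x ≤ (θ + ε / 2) * c1 + ε * γ / 8 * μ := by
    have h1 : (θ + ε / 2) * x ≤ (θ + ε / 2) * (c1 + ε' * μ) :=
      mul_le_mul_of_nonneg_left l2 (by positivity)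
    have h2 : (θ + ε / 2) * ε' * μ ≤ ε * γ / 8 * μ := mul_le_mul_of_nonneg_right k3 hμ0'
    nlinarith
  have e4 : ε / 2 * (γ / 2 * μ - 2 * c1) ≤ ε / 2 * k := mul_le_mul_of_nonneg_left e1 (by positivity)
  have e5 := le_abs_self (Real.log C)
  nlinarith

end Pool.Agent.Y679.Md
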