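import Pool.Agent.Y679.Md.Forms
import Pool.Agent.Y679.Md.Upp
import Pool.Agent.Y679.Kf.Cnt
import Pool.Agent.Y679.Kf.Line

/-! Counting the fibres by the product of the primes dividing the form of the bad fibres
(helper679). -/

set_option autoImplicit false

namespace Pool.Agent.Y679.Md

open Finset Polynomial
open Pool.Agent.Y670.RD (fv fvq fv_zero toQ)
open Pool.Agent.TH867.SQ (lr lr_nonneg lr_mul lr_dvd)
open Pool.Agent.TH867.QF (Fm ev va Rs Rs_pos Pt U U_pos ht ht_pos va_pos va_le)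
open Pool.Agent.Y679.Kf

/-- the points with `N ≤ X` -/
def Pts (g : ℤ[X]) (X : ℝ) : Set (ℤ × ℤ) :=
  {P | IsCoprime P.1 P.2 ∧ fv g.natDegree g P.1 P.2 ≠ 0 ∧
    (rd (fv g.natDegree g P.1 P.2).natAbs : ℝ) ≤ X}

theorem mx_ht (P : ℤ × ℤ) : mx P.1 P.2 = (ht P : ℝ) := by
  unfold mx ht
  rw [Nat.cast_max, Nat.cast_natAbs, Nat.cast_natAbs, Int.cast_abs, Int.cast_abs]

theorem transfer {g : ℤ[X]} {d : ℕ} (hd : g.natDegree = d + 3) (hsq : Squarefree (toQ g))
    (hsp : (toQ g).Splits) : ∃ (L : Fm (d + 3)) (c : ℝ), 0 ≤ c ∧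
      (∀ P : ℤ × ℤ, IsCoprime P.1 P.2 → fv g.natDegree g P.1 P.2 ≠ 0 → Pt L P ∧
        sr L P ≤ Real.log (rd (fv g.natDegree g P.1 P.2).natAbs) + c) ∧
      ∀ P : ℤ × ℤ, Pt L P → fv g.natDegree g P.1 P.2 ≠ 0 := by
  obtain ⟨L, K1, hK1, hL⟩ := forms hd hsq hsp
  have hg0 : g ≠ 0 := by
    rintro rfl
    simp at hd
  have hlc : g.leadingCoeff ≠ 0 := leadingCoeff_ne_zero.mpr hg0
  have hRs : 0 ≤ Real.log (Rs L) := Real.log_natCast_nonneg _
  refine ⟨L, lr K1.natAbs + ((d + 3 : ℕ) : ℝ) * Real.log (Rs L), ?_, ?_, ?_⟩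
  · have := lr_nonneg K1.natAbs
    positivity
  · intro P hP hG
    rw [hd] at hG ⊢
    have h1 := hL P
    have hprod : ∏ i, ev L P i ≠ 0 := by
      intro h0
      rw [h0, mul_zero] at h1
      exact mul_ne_zero hK1 hG h1
    have hPt : Pt L P := ⟨hP, fun i => Finset.prod_ne_zero_iff.mp hprod i (mem_univ i)⟩
    refine ⟨hPt, ?_⟩
    have h2 := sr_le hPt
    have hK1n : K1.natAbs ≠ 0 := Int.natAbs_ne_zero.mpr hK1
    have hGn : (fv (d + 3) g P.1 P.2).natAbs ≠ 0 := Int.natAbs_ne_zero.mpr hG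
    have h3 : Vp L P ∣ K1.natAbs * (fv (d + 3) g P.1 P.2).natAbs := by
      have h4 : Vp L P = (∏ i, ev L P i).natAbs := by
        unfold Vp va
        exact (map_prod Int.natAbsHom (fun i => ev L P i) univ).symm
      rw [h4, ← Int.natAbs_mul, h1, Int.natAbs_mul]
      exact dvd_mul_left _ _
    have h5 := lr_dvd (mul_ne_zero hK1n hGn) h3
    have h6 := lr_mul _ _ hK1n hGn
    rw [← lr_rd]
    linarith
  · intro P hP h0
    have h1 := hL P
    rw [hd] at h0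
    rw [h0, mul_zero] at h1
    exact mul_ne_zero hlc (Finset.prod_ne_zero_iff.mpr fun i _ => hP.ne i) h1.symm

/-- **the number of the fibres**, and of the bad ones -/
theorem count_main {g : ℤ[X]} {d : ℕ} (hd : g.natDegree = d + 3) (hsq : Squarefree (toQ g))
    (hsp : (toQ g).Splits) :
    (∃ c C X0 : ℝ, 0 < c ∧ 0 < C ∧ (∀ X : ℝ, 1 ≤ X → (Pts g X).Finite ∧
        ((Pts g X).ncard : ℝ) ≤ C * X ^ (2 / (g.natDegree : ℝ))) ∧
      ∀ X : ℝ, X0 ≤ X → c * X ^ (2 / (g.natDegree : ℝ)) ≤ ((Pts g X).ncard : ℝ)) ∧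
    (∀ ε' M0 : ℝ, 0 < ε' → ∃ ν C : ℝ, 0 < ν ∧ ν < 2 / (g.natDegree : ℝ) ∧ 0 < C ∧
      ∀ X : ℝ, 1 ≤ X → ({P ∈ Pts g X | ¬ (M0 ≤ mx P.1 P.2 ∧
        mx P.1 P.2 ^ ((g.natDegree : ℝ) - ε') ≤
          (rd (fv g.natDegree g P.1 P.2).natAbs : ℝ))}.ncard : ℝ) ≤
        C * X ^ (2 / (g.natDegree : ℝ) - ν)) := by
  classical
  obtain ⟨L, c, hc, htr, htr2⟩ := transfer hd hsq hsp
  have hdR : (g.natDegree : ℝ) = (d : ℝ) + 3 := by rw [hd]; push_cast; ring
  have hd3 : (0 : ℝ) < (d : ℝ) + 3 := by positivity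
  obtain ⟨Ct, hCt, htot⟩ := line_tot L
  have hsrX : ∀ (X : ℝ), 1 ≤ X → ∀ P ∈ Pts g X, Pt L P ∧ sr L P ≤ Real.log (X * Real.exp c) := by
    intro X hX P hP
    obtain ⟨g1, g2⟩ := htr P hP.1 hP.2.1
    refine ⟨g1, ?_⟩
    rw [Real.log_mul (by linarith) (by positivity), Real.log_exp]
    have h1 : Real.log (rd (fv g.natDegree g P.1 P.2).natAbs) ≤ Real.log X :=
      Real.log_le_log (by exact_mod_cast rd_pos _) hP.2.2
    linarith
  have hup : ∀ X : ℝ, 1 ≤ X → (Pts g X).Finite ∧ ((Pts g X).ncard : ℝ) ≤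
      (Ct * Real.exp c ^ (2 / ((d : ℝ) + 3))) * X ^ (2 / (g.natDegree : ℝ)) := by
    intro X hX
    refine fin_card fun F hF => ?_
    have h1 := htot (X * Real.exp c) (by
      have := Real.one_le_exp hc
      nlinarith) F fun P hP => hsrX X hX P (hF P hP)
    refine h1.trans (le_of_eq ?_)
    rw [Real.mul_rpow (by linarith) (by positivity), hdR]
    ring
  refine ⟨?_, ?_⟩
  · -- lower bound
    obtain ⟨K, hK⟩ : ∃ K : ℝ, K = cf g * 4 ^ (d + 3) := ⟨_, rfl⟩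
    have hcf := cf_one g
    have hK1 : 1 ≤ K := by
      rw [hK]
      have : (1 : ℝ) ≤ 4 ^ (d + 3) := one_le_pow₀ (by norm_num)
      nlinarith
    have hK0 : 0 < K := by linarith
    refine ⟨1 / (8 * K ^ (2 / ((d : ℝ) + 3))), Ct * Real.exp c ^ (2 / ((d : ℝ) + 3)),
      max 1 (K * (2 * ((d : ℝ) + 3)) ^ ((d : ℝ) + 3)), by positivity, by positivity, hup,
      fun X hX => ?_⟩
    have hX1 : 1 ≤ X := (le_max_left _ _).trans hX
    have hX0 : 0 < X := by linarith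
    obtain ⟨Z, hZ⟩ : ∃ Z : ℝ, Z = (X / K) ^ (1 / ((d : ℝ) + 3)) := ⟨_, rfl⟩
    have hZ2 : 2 * ((d : ℝ) + 3) ≤ Z := by
      have h1 : (2 * ((d : ℝ) + 3)) ^ ((d : ℝ) + 3) ≤ X / K := by
        rw [le_div_iff₀ hK0, mul_comm]
        exact (le_max_right _ _).trans hX
      have h2 := Real.rpow_le_rpow (by positivity) h1 (by positivity : 0 ≤ 1 / ((d : ℝ) + 3))
      rw [← Real.rpow_mul (by positivity), mul_one_div_cancel hd3.ne', Real.rpow_one] at h2
      rw [hZ]; exact h2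
    have hZ1 : 6 ≤ Z := by
      have : (0 : ℝ) ≤ d := Nat.cast_nonneg _
      linarith
    obtain ⟨H, hH⟩ : ∃ H : ℕ, H = ⌊Z⌋₊ := ⟨_, rfl⟩
    have hHZ : (H : ℝ) ≤ Z := by rw [hH]; exact Nat.floor_le (by linarith)
    have hHZ2 : Z / 2 ≤ H := by
      have h1 : Z - 1 < H := by rw [hH]; exact Nat.sub_one_lt_floor _
      linarith
    have hHd : 2 * (d + 3) ≤ H := by
      rw [hH]
      refine Nat.le_floor ?_
      push_cast
      exact hZ2
    obtain ⟨T, hT, hTc⟩ := shell L H (by nlinarith)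
    have hsub : (T : Set (ℤ × ℤ)) ⊆ Pts g X := by
      intro P hP
      obtain ⟨-, g2, -, g4⟩ := hT P hP
      refine ⟨g2.cop, htr2 P g2, ?_⟩
      have hG := htr2 P g2
      have h1 : (rd (fv g.natDegree g P.1 P.2).natAbs : ℝ) ≤ |(fv g.natDegree g P.1 P.2 : ℝ)| := by
        have h2 := rd_le (Int.natAbs_ne_zero.mpr hG)
        have h3 : (rd (fv g.natDegree g P.1 P.2).natAbs : ℝ) ≤
          ((fv g.natDegree g P.1 P.2).natAbs : ℝ) := by exact_mod_cast h2
        rwa [Nat.cast_natAbs, Int.cast_abs] at h3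
      refine h1.trans ((fv_cf g P.1 P.2 g2.cop).trans ?_)
      rw [mx_ht, hd]
      have h4 : (ht P : ℝ) ≤ 4 * Z := by
        have : (ht P : ℝ) ≤ ((4 * H : ℕ) : ℝ) := by exact_mod_cast g4
        push_cast at this
        linarith
      have h5 : Z ^ (d + 3) = X / K := by
        rw [hZ, ← Real.rpow_natCast, ← Real.rpow_mul (by positivity)]
        have : 1 / ((d : ℝ) + 3) * ((d + 3 : ℕ) : ℝ) = 1 := by push_cast; field_simp
        rw [this, Real.rpow_one]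
      calc cf g * (ht P : ℝ) ^ (d + 3) ≤ cf g * (4 * Z) ^ (d + 3) := by gcongr
        _ = K * (X / K) := by rw [mul_pow, h5, hK]; ring
        _ = X := by field_simp
    have hcard : (T.card : ℝ) ≤ ((Pts g X).ncard : ℝ) := by
      have h1 := Set.ncard_le_ncard hsub (hup X hX1).1
      rw [Set.ncard_coe_finset] at h1
      exact_mod_cast h1
    refine le_trans ?_ (hTc.trans hcard)
    have h6 : Z ^ 2 = X ^ (2 / ((d : ℝ) + 3)) / K ^ (2 / ((d : ℝ) + 3)) := by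
      rw [hZ, ← Real.rpow_natCast, ← Real.rpow_mul (by positivity), ← Real.div_rpow hX0.le hK0.le]
      congr 1
      push_cast
      ring
    have h7 : (Z / 2) ^ 2 ≤ (H : ℝ) ^ 2 := pow_le_pow_left₀ (by positivity) hHZ2 2
    rw [hdR]
    calc 1 / (8 * K ^ (2 / ((d : ℝ) + 3))) * X ^ (2 / ((d : ℝ) + 3)) = (Z / 2) ^ 2 / 2 := by
          rw [div_pow, h6]
          field_simp
          norm_num
      _ ≤ (H : ℝ) ^ 2 / 2 := by linarith
  · intro ε' M0 hε'
    obtain ⟨δ, hδ⟩ : ∃ δ : ℝ, δ = ε' / (2 * ((d : ℝ) + 3) ^ 2) := ⟨_, rfl⟩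
    have hδ0 : 0 < δ := by rw [hδ]; positivity
    obtain ⟨ν, hν, hν2, C1, hC1, hbad⟩ := bad_count L δ hδ0
    obtain ⟨M1, hM1⟩ : ∃ M1 : ℝ, M1 = max M0 (Real.exp (2 * c / ε')) := ⟨_, rfl⟩
    obtain ⟨z, hz⟩ : ∃ z : ℕ, M1 ≤ z := exists_nat_ge M1
    refine ⟨ν, (2 * (z : ℝ) + 1) ^ 2 + C1 * Real.exp c ^ (2 / ((d : ℝ) + 3) - ν), hν,
      by rw [hdR]; exact hν2, by positivity, fun X hX => ?_⟩
    have hX0 : 0 < X := by linarith
    refine (fin_card fun F hF => ?_).2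
    obtain ⟨F1, hF1⟩ : ∃ F1 : Finset (ℤ × ℤ), F1 = F.filter fun P => mx P.1 P.2 < M1 := ⟨_, rfl⟩
    obtain ⟨F2, hF2⟩ : ∃ F2 : Finset (ℤ × ℤ), F2 = F.filter fun P => ¬ mx P.1 P.2 < M1 := ⟨_, rfl⟩
    have hFc : F1.card + F2.card = F.card := by
      rw [hF1, hF2]; exact Finset.card_filter_add_card_filter_not _
    have e1 : F1.card ≤ (2 * z + 1) * (2 * z + 1) := by
      have h1 : F1 ⊆ (Finset.Icc (-(z : ℤ)) z) ×ˢ (Finset.Icc (-(z : ℤ)) z) := by
        intro P hP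
        rw [hF1, mem_filter] at hP
        have h2 : mx P.1 P.2 < z := lt_of_lt_of_le hP.2 hz
        unfold mx at h2
        have h3 : |(P.1 : ℝ)| < z := lt_of_le_of_lt (le_max_left _ _) h2
        have h4 : |(P.2 : ℝ)| < z := lt_of_le_of_lt (le_max_right _ _) h2
        have h3' : |P.1| < (z : ℤ) := by exact_mod_cast h3
        have h4' : |P.2| < (z : ℤ) := by exact_mod_cast h4
        rw [mem_product, Finset.mem_Icc, Finset.mem_Icc]
        exact ⟨abs_le.mp h3'.le, abs_le.mp h4'.le⟩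
      refine (card_le_card h1).trans (le_of_eq ?_)
      rw [card_product, Int.card_Icc]
      congr 1 <;> omega
    have e2 : (F2.card : ℝ) ≤ C1 * (X * Real.exp c) ^ (2 / ((d : ℝ) + 3) - ν) := by
      refine hbad (X * Real.exp c) (by
        have := Real.one_le_exp hc
        nlinarith) F2 fun P hP => ?_
      rw [hF2, mem_filter] at hP
      obtain ⟨hPF, hPM⟩ := hP
      push Not at hPM
      obtain ⟨hPX, hPn⟩ := hF P hPF
      obtain ⟨g1, g2⟩ := hsrX X hX P hPX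
      refine ⟨g1, g2, fun hGd => hPn ⟨((le_max_left _ _).trans hM1.symm.le).trans hPM, ?_⟩⟩
      -- good points
      have hrdpos : (0 : ℝ) < (rd (fv g.natDegree g P.1 P.2).natAbs : ℝ) := by
        exact_mod_cast rd_pos _
      have hmx1 := mx_one hPX.1
      have hmx0 : 0 < mx P.1 P.2 := by linarith
      rw [← Real.log_le_log_iff (by positivity) hrdpos, Real.log_rpow hmx0]
      have h1 := hGd.1
      rw [← mx_ht] at h1
      have h2 := (htr P hPX.1 hPX.2.1).2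
      obtain ⟨μ, hμ⟩ : ∃ μ : ℝ, μ = Real.log (mx P.1 P.2) := ⟨_, rfl⟩
      have hμ0 : 0 ≤ μ := by rw [hμ]; exact Real.log_nonneg hmx1
      have hμ1 : 2 * c / ε' ≤ μ := by
        rw [hμ]
        exact (Real.le_log_iff_exp_le hmx0).mpr
          (((le_max_right _ _).trans hM1.symm.le).trans hPM)
      rw [div_le_iff₀ hε'] at hμ1
      rw [← hμ] at h1 ⊢
      have hcast : (((d + 3 : ℕ)) : ℝ) = (d : ℝ) + 3 := by push_cast; ring
      rw [hcast] at h1
      obtain ⟨γ, hγ⟩ : ∃ γ : ℝ, γ = (d : ℝ) + 3 := ⟨_, rfl⟩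
      have hγ0 : 0 < γ := by rw [hγ]; exact hd3
      rw [← hγ] at h1 hδ
      rw [hdR, ← hγ]
      -- `(γ - ε'/2) μ ≤ sr`
      have hsr := sr_nonneg L P
      have h3 : γ * μ ≤ (1 + γ * δ) * sr L P := by
        have h4 := mul_le_mul_of_nonneg_left h1 hγ0.le
        have h5 : γ * ((1 / γ + δ) * sr L P) = (1 + γ * δ) * sr L P := by field_simp
        linarith
      have h4 : (γ - ε' / 2) * μ ≤ sr L P := by
        have h5 : γ * δ = ε' / (2 * γ) := by rw [hδ]; field_simp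
        rcases le_total (γ - ε' / 2) 0 with hneg | hpos
        · have := mul_nonpos_of_nonpos_of_nonneg hneg hμ0
          linarith
        · have h6 : (γ - ε' / 2) * (1 + γ * δ) ≤ γ := by
            rw [h5]
            have h7 : (γ - ε' / 2) * (1 + ε' / (2 * γ)) = γ - ε' ^ 2 / (4 * γ) := by
              field_simp
              ring
            rw [h7]
            have : 0 ≤ ε' ^ 2 / (4 * γ) := by positivity
            linarith
          have h8 : (γ - ε' / 2) * (γ * μ) ≤ γ * sr L P := by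
            calc (γ - ε' / 2) * (γ * μ) ≤ (γ - ε' / 2) * ((1 + γ * δ) * sr L P) :=
                  mul_le_mul_of_nonneg_left h3 hpos
              _ = ((γ - ε' / 2) * (1 + γ * δ)) * sr L P := by ring
              _ ≤ γ * sr L P := mul_le_mul_of_nonneg_right h6 hsr
          have h9 : γ * ((γ - ε' / 2) * μ) ≤ γ * sr L P := by linarith
          exact le_of_mul_le_mul_left h9 hγ0
      nlinarith
    have h1 : (F.card : ℝ) = F1.card + F2.card := by exact_mod_cast hFc.symm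
    have h2 : (F1.card : ℝ) ≤ (2 * (z : ℝ) + 1) ^ 2 := by
      have : (F1.card : ℝ) ≤ (((2 * z + 1) * (2 * z + 1) : ℕ) : ℝ) := by exact_mod_cast e1
      push_cast at this
      linarith
    have h3 : 1 ≤ X ^ (2 / ((d : ℝ) + 3) - ν) := Real.one_le_rpow hX (by linarith)
    rw [Real.mul_rpow hX0.le (by positivity)] at e2
    rw [h1, hdR]
    have h4 : (2 * (z : ℝ) + 1) ^ 2 ≤ (2 * (z : ℝ) + 1) ^ 2 * X ^ (2 / ((d : ℝ) + 3) - ν) :=
      le_mul_of_one_le_right (by positivity) h3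
    calc (F1.card : ℝ) + F2.card ≤ (2 * (z : ℝ) + 1) ^ 2 * X ^ (2 / ((d : ℝ) + 3) - ν) +
          C1 * (X ^ (2 / ((d : ℝ) + 3) - ν) * Real.exp c ^ (2 / ((d : ℝ) + 3) - ν)) := by linarith
      _ = _ := by ring

end Pool.Agent.Y679.Md
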