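import Pool.Agent.Y670.RD.Clr
import Pool.Agent.Y679.Kf.Lw

/-! A squarefree polynomial with rational roots as a product of linear forms (helper679). -/

set_option autoImplicit false

namespace Pool.Agent.Y679.Md

open Finset Polynomial
open Pool.Agent.Y670.RD (fv fvq fv_zero toQ)
open Pool.Agent.TH867.QF (Fm ev va Rs Rs_pos Pt U U_pos ht ht_pos va_pos va_le)

/-- the roots -/
theorem rootsf {g : ℤ[X]} {r : ℕ} (hr : g.natDegree = r) (hsq : Squarefree (toQ g))
    (hsp : (toQ g).Splits) :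
    ∃ ρ : Fin r → ℚ, Function.Injective ρ ∧
      toQ g = C (g.leadingCoeff : ℚ) * ∏ i : Fin r, (X - C (ρ i)) := by
  classical
  have hinj : Function.Injective (Int.castRingHom ℚ) := Int.cast_injective
  have hdegQ : (toQ g).natDegree = r := by
    rw [← hr]; exact natDegree_map_eq_of_injective hinj g
  have hlcQ : (toQ g).leadingCoeff = (g.leadingCoeff : ℚ) := by
    unfold toQ
    rw [leadingCoeff_map_of_injective hinj]
    rfl
  have hsep : (toQ g).Separable := PerfectField.separable_iff_squarefree.mpr hsq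
  have hnd := nodup_roots hsep
  have hcard : (toQ g).roots.toFinset.card = r := by
    rw [Multiset.toFinset_card_of_nodup hnd, ← hsp.natDegree_eq_card_roots, hdegQ]
  obtain ⟨e⟩ : Nonempty (Fin r ≃ (toQ g).roots.toFinset) :=
    ⟨((Fintype.equivFinOfCardEq (by simpa using hcard))).symm⟩
  refine ⟨fun i => (e i : ℚ), fun i j hij => e.injective (Subtype.ext hij), ?_⟩
  have h1 := hsp.eq_prod_roots
  rw [hlcQ] at h1
  refine h1.trans ?_
  congr 1
  have h2 : (Multiset.map (fun x => X - C x) (toQ g).roots).prod =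
      ∏ x ∈ (toQ g).roots.toFinset, (X - C x) := by
    rw [Finset.prod_eq_multiset_prod, Multiset.toFinset_val, Multiset.dedup_eq_self.mpr hnd]
  rw [h2, ← Finset.prod_coe_sort]
  exact (Equiv.prod_comp e (fun x : (toQ g).roots.toFinset => X - C (x : ℚ))).symm

/-- the linear forms with given roots -/
def mkL {r : ℕ} (ρ : Fin r → ℚ) (h : Function.Injective ρ) : Fm r where
  u i := ((ρ i).den : ℤ)
  w i := -(ρ i).num
  res := by
    intro i j hij h0
    apply hij
    apply h
    have h1 : (ρ i) = (ρ i).num / (ρ i).den := (Rat.num_div_den _).symm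
    have h2 : (ρ j) = (ρ j).num / (ρ j).den := (Rat.num_div_den _).symm
    have d1 : ((ρ i).den : ℚ) ≠ 0 := by exact_mod_cast (ρ i).den_nz
    have d2 : ((ρ j).den : ℚ) ≠ 0 := by exact_mod_cast (ρ j).den_nz
    have h3 : ((ρ i).num : ℚ) * (ρ j).den = (ρ j).num * (ρ i).den := by
      have h4 : (ρ i).num * ((ρ j).den : ℤ) = (ρ j).num * ((ρ i).den : ℤ) := by
        linarith
      exact_mod_cast h4
    rw [h1, h2, div_eq_div_iff d1 d2]
    exact h3

theorem ev_mkL {r : ℕ} (ρ : Fin r → ℚ) (h : Function.Injective ρ) (P : ℤ × ℤ) (i : Fin r) :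
    ((ev (mkL ρ h) P i : ℤ) : ℚ) = ((ρ i).den : ℚ) * (P.1 - ρ i * P.2) := by
  unfold ev mkL
  push_cast
  have h1 := Rat.mul_den_eq_num (ρ i)
  linear_combination (P.2 : ℚ) * h1

/-- the linear forms -/
theorem forms {g : ℤ[X]} {r : ℕ} (hr : g.natDegree = r) (hsq : Squarefree (toQ g))
    (hsp : (toQ g).Splits) :
    ∃ (L : Fm r) (K1 : ℤ), K1 ≠ 0 ∧ ∀ P : ℤ × ℤ,
      K1 * fv r g P.1 P.2 = g.leadingCoeff * ∏ i, ev L P i := by
  obtain ⟨ρ, hρ, hprod⟩ := rootsf hr hsq hsp
  refine ⟨mkL ρ hρ, ∏ i, ((ρ i).den : ℤ), ?_, fun P => ?_⟩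
  · exact Finset.prod_ne_zero_iff.mpr fun i _ => by exact_mod_cast (ρ i).den_nz
  have hG : ((fv r g P.1 P.2 : ℤ) : ℚ) =
      (g.leadingCoeff : ℚ) * ∏ i : Fin r, ((P.1 : ℚ) - ρ i * P.2) := by
    rcases eq_or_ne P.2 0 with h0 | h0
    · rw [h0, fv_zero]
      have : g.coeff r = g.leadingCoeff := by rw [← hr]; rfl
      rw [this]
      push_cast
      simp only [mul_zero, sub_zero, Finset.prod_const, Finset.card_univ, Fintype.card_fin]
    · have h0' : (P.2 : ℚ) ≠ 0 := by exact_mod_cast h0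
      rw [fvq hr.le h0]
      have h1 : aeval ((P.1 : ℚ) / P.2) g = (toQ g).eval ((P.1 : ℚ) / P.2) := by
        unfold toQ
        rw [eval_map, aeval_def]
        rfl
      rw [h1, hprod, eval_mul, eval_C, eval_prod]
      have h2 : (P.2 : ℚ) ^ r = ∏ _i : Fin r, (P.2 : ℚ) := by
        rw [Finset.prod_const, Finset.card_univ, Fintype.card_fin]
      rw [h2, mul_left_comm, ← Finset.prod_mul_distrib]
      congr 1
      refine Finset.prod_congr rfl fun i _ => ?_
      rw [eval_sub, eval_X, eval_C]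
      field_simp
  have key : (((∏ i, ((ρ i).den : ℤ)) * fv r g P.1 P.2 : ℤ) : ℚ) =
      ((g.leadingCoeff * ∏ i, ev (mkL ρ hρ) P i : ℤ) : ℚ) := by
    rw [Int.cast_mul, Int.cast_mul, Int.cast_prod, Int.cast_prod]
    rw [Finset.prod_congr rfl fun i _ => ev_mkL ρ hρ P i, Finset.prod_mul_distrib, hG]
    push_cast
    ring
  exact_mod_cast key

end Pool.Agent.Y679.Md
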