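import Pool.Agent.H39R3.Model

/-! Global minimal equations: existence, and minimality at the primes `≥ 5` (helper679). -/

set_option autoImplicit false

namespace Pool.Agent.Y679.Md

open Pool.Agent.H39R3 (GMin condW)

theorem map_Δ' (W : WeierstrassCurve ℤ) : (W.map (Int.castRingHom ℚ)).Δ = (W.Δ : ℚ) := by
  rw [WeierstrassCurve.map_Δ]; rfl

theorem map_c4' (W : WeierstrassCurve ℤ) : (W.map (Int.castRingHom ℚ)).c₄ = (W.c₄ : ℚ) := by
  rw [WeierstrassCurve.map_c₄]; rfl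

theorem map_c6' (W : WeierstrassCurve ℤ) : (W.map (Int.castRingHom ℚ)).c₆ = (W.c₆ : ℚ) := by
  rw [WeierstrassCurve.map_c₆]; rfl

/-- every integral equation is isomorphic to a global minimal one -/
theorem gmin_ex (W0 : WeierstrassCurve ℤ) (h0 : W0.Δ ≠ 0) :
    ∃ W : WeierstrassCurve ℤ, GMin W ∧ ∃ v : ℚ, v ≠ 0 ∧ (W.c₄ : ℚ) = v ^ 4 * W0.c₄ ∧
      (W.c₆ : ℚ) = v ^ 6 * W0.c₆ := by
  classical
  have hex : ∃ n : ℕ, ∃ W : WeierstrassCurve ℤ, (∃ C : WeierstrassCurve.VariableChange ℚ,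
      C • W0.map (Int.castRingHom ℚ) = W.map (Int.castRingHom ℚ)) ∧ W.Δ.natAbs = n :=
    ⟨W0.Δ.natAbs, W0, ⟨1, one_smul _ _⟩, rfl⟩
  obtain ⟨W, ⟨C, hC⟩, hn⟩ := Nat.find_spec hex
  have hmin := fun m => Nat.find_min' hex (m := m)
  have hu0 : ((C.u⁻¹ : ℚˣ) : ℚ) ≠ 0 := Units.ne_zero _
  have hΔ : (W.Δ : ℚ) = ((C.u⁻¹ : ℚˣ) : ℚ) ^ 12 * W0.Δ := by
    rw [← map_Δ', ← map_Δ', ← hC, WeierstrassCurve.variableChange_Δ]
  refine ⟨W, ⟨?_, ?_⟩, ((C.u⁻¹ : ℚˣ) : ℚ), hu0, ?_, ?_⟩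
  · intro h
    rw [h, Int.cast_zero] at hΔ
    have h1 : (W0.Δ : ℚ) ≠ 0 := by exact_mod_cast h0
    exact mul_ne_zero (pow_ne_zero 12 hu0) h1 hΔ.symm
  · rintro W' ⟨C', hC'⟩
    have h1 := hmin W'.Δ.natAbs ⟨W', ⟨C' * C, by rw [mul_smul, hC, hC']⟩, rfl⟩
    rw [← hn] at h1
    rw [Int.abs_eq_natAbs, Int.abs_eq_natAbs]
    exact_mod_cast h1
  · rw [← map_c4', ← map_c4', ← hC, WeierstrassCurve.variableChange_c₄]
  · rw [← map_c6', ← map_c6', ← hC, WeierstrassCurve.variableChange_c₆]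

theorem solve {m k : ℤ} (h : IsCoprime m k) (x : ℤ) : ∃ y : ℤ, m ∣ x + k * y := by
  obtain ⟨a, b, hab⟩ := h
  exact ⟨-(b * x), a * x, by linear_combination (-x) * hab⟩

/-- a global minimal equation is minimal at the primes `≥ 5` -/
theorem gmin_no {W : WeierstrassCurve ℤ} (hW : GMin W) {p : ℕ} (hp : p.Prime) (h5 : 5 ≤ p)
    (h4 : (p : ℤ) ^ 4 ∣ W.c₄) (h6 : (p : ℤ) ^ 6 ∣ W.c₆) : False := by
  have hpr : Prime (p : ℤ) := Nat.prime_iff_prime_int.mp hp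
  have hp0 : (p : ℤ) ≠ 0 := hpr.ne_zero
  have hnd : ∀ k : ℕ, 0 < k → k < 5 → ¬ (p : ℤ) ∣ (k : ℤ) := by
    intro k hk hk5 hd
    have h1 : p ∣ k := by exact_mod_cast hd
    have := Nat.le_of_dvd hk h1
    omega
  have c2 : IsCoprime (p : ℤ) 2 := hpr.irreducible.coprime_iff_not_dvd.mpr (hnd 2 (by norm_num)
    (by norm_num))
  have c3 : IsCoprime (p : ℤ) 3 := hpr.irreducible.coprime_iff_not_dvd.mpr (hnd 3 (by norm_num)
    (by norm_num))
  have c4 : IsCoprime (p : ℤ) 4 := by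
    have : (4 : ℤ) = 2 ^ 2 := by norm_num
    rw [this]; exact c2.pow_right
  obtain ⟨s, a1, hs⟩ := solve c2 W.a₁
  obtain ⟨r, a2, hr⟩ := solve (c3.pow_left (m := 2)) (W.a₂ - s * W.a₁ - s ^ 2)
  obtain ⟨t, a3, ht⟩ := solve (c2.pow_left (m := 3)) (W.a₃ + r * W.a₁)
  obtain ⟨C1, hC1⟩ : ∃ C1 : WeierstrassCurve.VariableChange ℤ, C1 = ⟨1, r, s, t⟩ := ⟨_, rfl⟩
  obtain ⟨V, hV⟩ : ∃ V : WeierstrassCurve ℤ, V = C1 • W := ⟨_, rfl⟩
  have v1 : V.a₁ = p * a1 := by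
    rw [hV, WeierstrassCurve.variableChange_a₁, hC1]
    simp only [inv_one, Units.val_one]
    linear_combination hs
  have v2 : V.a₂ = p ^ 2 * a2 := by
    rw [hV, WeierstrassCurve.variableChange_a₂, hC1]
    simp only [inv_one, Units.val_one]
    linear_combination hr
  have v3 : V.a₃ = p ^ 3 * a3 := by
    rw [hV, WeierstrassCurve.variableChange_a₃, hC1]
    simp only [inv_one, Units.val_one]
    linear_combination ht
  have w4 : V.c₄ = W.c₄ := by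
    rw [hV, WeierstrassCurve.variableChange_c₄, hC1]
    simp
  have w6 : V.c₆ = W.c₆ := by
    rw [hV, WeierstrassCurve.variableChange_c₆, hC1]
    simp
  have wΔ : V.Δ = W.Δ := by
    rw [hV, WeierstrassCurve.variableChange_Δ, hC1]
    simp
  rw [← w4] at h4
  rw [← w6] at h6
  have c24 : IsCoprime ((p : ℤ) ^ 4) 24 := by
    have : (24 : ℤ) = 2 ^ 3 * 3 := by norm_num
    rw [this]
    exact (c2.pow (m := 4) (n := 3)).mul_right (c3.pow_left (m := 4))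
  have c216 : IsCoprime ((p : ℤ) ^ 6) 216 := by
    have : (216 : ℤ) = 2 ^ 3 * 3 ^ 3 := by norm_num
    rw [this]
    exact (c2.pow (m := 6) (n := 3)).mul_right (c3.pow (m := 6) (n := 3))
  -- `b₂`
  have b2 : V.b₂ = p ^ 2 * (a1 ^ 2 + 4 * a2) := by
    unfold WeierstrassCurve.b₂
    rw [v1, v2]; ring
  have b4 : (p : ℤ) ^ 4 ∣ V.b₄ := by
    have h : (p : ℤ) ^ 4 ∣ 24 * V.b₄ := by
      have e : 24 * V.b₄ = V.b₂ ^ 2 - V.c₄ := by unfold WeierstrassCurve.c₄; ring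
      rw [e]
      refine dvd_sub ?_ h4
      rw [b2]
      exact ⟨(a1 ^ 2 + 4 * a2) ^ 2, by ring⟩
    exact c24.dvd_of_dvd_mul_left h
  obtain ⟨y4, hy4⟩ := b4
  have b6 : (p : ℤ) ^ 6 ∣ V.b₆ := by
    have h : (p : ℤ) ^ 6 ∣ 216 * V.b₆ := by
      have e : 216 * V.b₆ = -V.b₂ ^ 3 + 36 * V.b₂ * V.b₄ - V.c₆ := by
        unfold WeierstrassCurve.c₆; ring
      rw [e]
      refine dvd_sub ?_ h6
      rw [b2, hy4]
      exact ⟨-(a1 ^ 2 + 4 * a2) ^ 3 + 36 * (a1 ^ 2 + 4 * a2) * y4, by ring⟩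
    exact c216.dvd_of_dvd_mul_left h
  obtain ⟨y6, hy6⟩ := b6
  have a4 : (p : ℤ) ^ 4 ∣ V.a₄ := by
    have h : (p : ℤ) ^ 4 ∣ 2 * V.a₄ := by
      have e : 2 * V.a₄ = V.b₄ - V.a₁ * V.a₃ := by unfold WeierstrassCurve.b₄; ring
      rw [e, hy4, v1, v3]
      exact ⟨y4 - a1 * a3, by ring⟩
    exact (c2.pow_left (m := 4)).dvd_of_dvd_mul_left h
  have a6 : (p : ℤ) ^ 6 ∣ V.a₆ := by
    have h : (p : ℤ) ^ 6 ∣ 4 * V.a₆ := by
      have e : 4 * V.a₆ = V.b₆ - V.a₃ ^ 2 := by unfold WeierstrassCurve.b₆; ring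
      rw [e, hy6, v3]
      exact ⟨y6 - a3 ^ 2, by ring⟩
    exact (c4.pow_left (m := 6)).dvd_of_dvd_mul_left h
  obtain ⟨z4, hz4⟩ := a4
  obtain ⟨z6, hz6⟩ := a6
  obtain ⟨V', hV'⟩ : ∃ V' : WeierstrassCurve ℤ, V' = ⟨a1, a2, a3, z4, z6⟩ := ⟨_, rfl⟩
  have hpq : (p : ℚ) ≠ 0 := by exact_mod_cast hp0
  have hiso : (⟨Units.mk0 (p : ℚ) hpq, 0, 0, 0⟩ : WeierstrassCurve.VariableChange ℚ) •
      V.map (Int.castRingHom ℚ) = V'.map (Int.castRingHom ℚ) := by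
    refine WeierstrassCurve.ext ?_ ?_ ?_ ?_ ?_
    · rw [WeierstrassCurve.variableChange_a₁]
      simp only [WeierstrassCurve.map_a₁, eq_intCast, v1, hV', Units.val_inv_eq_inv_val, Units.val_mk0]
      push_cast
      field_simp
      ring
    · rw [WeierstrassCurve.variableChange_a₂]
      simp only [WeierstrassCurve.map_a₁, WeierstrassCurve.map_a₂, eq_intCast, v1, v2, hV',
        Units.val_inv_eq_inv_val, Units.val_mk0]
      push_cast
      field_simp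
      ring
    · rw [WeierstrassCurve.variableChange_a₃]
      simp only [WeierstrassCurve.map_a₁, WeierstrassCurve.map_a₃, eq_intCast, v1, v3, hV',
        Units.val_inv_eq_inv_val, Units.val_mk0]
      push_cast
      field_simp
      ring
    · rw [WeierstrassCurve.variableChange_a₄]
      simp only [WeierstrassCurve.map_a₁, WeierstrassCurve.map_a₂, WeierstrassCurve.map_a₃,
        WeierstrassCurve.map_a₄, eq_intCast, v1, v2, v3, hz4, hV', Units.val_inv_eq_inv_val,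
        Units.val_mk0]
      push_cast
      field_simp
      ring
    · rw [WeierstrassCurve.variableChange_a₆]
      simp only [WeierstrassCurve.map_a₁, WeierstrassCurve.map_a₂, WeierstrassCurve.map_a₃,
        WeierstrassCurve.map_a₄, WeierstrassCurve.map_a₆, eq_intCast, v1, v2, v3, hz4, hz6, hV',
        Units.val_inv_eq_inv_val, Units.val_mk0]
      push_cast
      field_simp
      ring
  have hmapV : V.map (Int.castRingHom ℚ) =
      (C1.map (Int.castRingHom ℚ)) • W.map (Int.castRingHom ℚ) := by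
    rw [hV]
    exact (WeierstrassCurve.map_variableChange W C1 (Int.castRingHom ℚ)).symm
  have hle := hW.2 V' ⟨_, by rw [mul_smul, ← hmapV]; exact hiso⟩
  have hΔ : (V'.Δ : ℚ) * (p : ℚ) ^ 12 = W.Δ := by
    rw [← wΔ, ← map_Δ', ← hiso, WeierstrassCurve.variableChange_Δ, map_Δ']
    simp only [Units.val_inv_eq_inv_val, Units.val_mk0]
    field_simp
  have hΔ' : V'.Δ * (p : ℤ) ^ 12 = W.Δ := by exact_mod_cast hΔ
  have h1 : V'.Δ ≠ 0 := by
    intro h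
    rw [h, zero_mul] at hΔ'
    exact hW.1 hΔ'.symm
  rw [← hΔ', abs_mul] at hle
  have h2 : 0 < |V'.Δ| := abs_pos.mpr h1
  have h3 : (2 : ℤ) ^ 12 ≤ |(p : ℤ) ^ 12| := by
    rw [abs_of_nonneg (by positivity)]
    exact pow_le_pow_left₀ (by norm_num) (by exact_mod_cast hp.two_le) 12
  nlinarith

end Pool.Agent.Y679.Md
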