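import Pool.Agent.Y679.Md.Low

/-! The exponent is attained by a quadratic twist of every good fibre (helper679). -/

set_option autoImplicit false

namespace Pool.Agent.Y679.Md

open Finset Polynomial
open Pool.Agent.H925R.Szpiro (D IsMin condS)
open Pool.Agent.H39R3 (GMin condW condW_pos)
open Pool.Agent.Y670.RD
open Pool.Agent.Y679.Kf (rd rd_pos)

/-- the height of a curve is at least one -/
theorem H_one {W : WeierstrassCurve ℤ} (hW : GMin W) :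
    1 ≤ max (|(W.c₄ : ℝ)| ^ 3) ((W.c₆ : ℝ) ^ 2) := by
  by_cases h4 : W.c₄ = 0
  · have h6 : W.c₆ ≠ 0 := by
      intro h6
      have h1 := W.c_relation
      rw [h4, h6] at h1
      have : W.Δ = 0 := by linarith
      exact hW.1 this
    refine le_trans ?_ (le_max_right _ _)
    have h1 : (1 : ℤ) ≤ |W.c₆| := Int.one_le_abs h6
    have h2 : (1 : ℝ) ≤ |(W.c₆ : ℝ)| := by exact_mod_cast h1
    rw [← sq_abs]
    exact one_le_pow₀ h2
  · refine le_trans ?_ (le_max_left _ _)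
    have h1 : (1 : ℤ) ≤ |W.c₄| := Int.one_le_abs h4
    have h2 : (1 : ℝ) ≤ |(W.c₄ : ℝ)| := by exact_mod_cast h1
    exact one_le_pow₀ h2

/-- **the exponent is attained** -/
theorem lower {n : ℕ} {a b g : ℤ[X]} (h : Fam n a b g) (ε : ℝ) (hε : 0 < ε) :
    ∃ ε' M0 : ℝ, 0 < ε' ∧ ∀ s t : ℤ, IsCoprime s t → fv g.natDegree g s t ≠ 0 → M0 ≤ mx s t →
      mx s t ^ ((g.natDegree : ℝ) - ε') ≤ (rd (fv g.natDegree g s t).natAbs : ℝ) →
      ∃ (W : WeierstrassCurve ℤ) (u : ℚ), GMin W ∧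
        (W.c₄ : ℚ) = u ^ 2 * (fv (2 * n) a s t : ℤ) ∧
        (W.c₆ : ℚ) = u ^ 3 * (fv (3 * n) b s t : ℤ) ∧
        (condW W : ℝ) ^ (3 + 3 * (n : ℝ) / (g.natDegree : ℝ) - ε) ≤
          max (|(W.c₄ : ℝ)| ^ 3) ((W.c₆ : ℝ) ^ 2) := by
  have hdav := h.dav
  have hn1 : (1 : ℝ) ≤ n := by exact_mod_cast h.hn
  obtain ⟨γ, hγ⟩ : ∃ γ : ℝ, γ = (g.natDegree : ℝ) := ⟨_, rfl⟩
  have hγn : (n : ℝ) + 2 ≤ γ := by
    have : ((n + 2 : ℕ) : ℝ) ≤ g.natDegree := by exact_mod_cast hdav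
    push_cast at this
    rw [hγ]; exact this
  have hγ0 : 0 < γ := by linarith
  have hg0 : g ≠ 0 := by
    rintro rfl
    simp at hdav
  have hlc : g.leadingCoeff ≠ 0 := leadingCoeff_ne_zero.mpr hg0
  obtain ⟨m3, k, dq, q, hm3, hdeg, hdisc⟩ := disc_pow h
  obtain ⟨m2, x, y, w, hm2, hbz⟩ := bezoutZ a b g h.hsq h.hmin
  obtain ⟨e2, he2⟩ := bez_val h.ha h.hb le_rfl hbz
  obtain ⟨S, hS⟩ : ∃ S : Finset ℕ, S = SS g 1 m2 m3 := ⟨_, rfl⟩
  have hSp : ∀ p ∈ S, p.Prime := by rw [hS]; exact SS_prime g 1 m2 m3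
  have hBad : BadS g.leadingCoeff 1 m2 S := by rw [hS]; exact SS_bad g 1 m2 m3
  obtain ⟨θ, hθ⟩ : ∃ θ : ℝ, θ = 3 + 3 * (n : ℝ) / γ := ⟨_, rfl⟩
  have hθ0 : 0 < θ := by rw [hθ]; positivity
  have hθγ : θ * (2 * γ) = 6 * γ + 6 * n := by
    rw [hθ]; field_simp; ring
  obtain ⟨ε', hε'⟩ : ∃ ε' : ℝ, ε' = γ * ε / (12 + 3 * k) := ⟨_, rfl⟩
  have hk12 : (0 : ℝ) < 12 + 3 * (k : ℝ) := by positivity
  have hε'0 : 0 < ε' := by rw [hε']; positivity
  have hε'k : (12 + 3 * (k : ℝ)) * ε' = γ * ε := by rw [hε']; field_simp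
  obtain ⟨pS, hpS⟩ : ∃ pS : ℝ, pS = ((∏ p ∈ S, p : ℕ) : ℝ) := ⟨_, rfl⟩
  have hpS1 : 1 ≤ pS := by rw [hpS]; exact_mod_cast pS_pos S hSp
  obtain ⟨c1, hc1⟩ : ∃ c1 : ℝ, c1 = Real.log (cf g) + Real.log pS := ⟨_, rfl⟩
  have hcf := cf_one g
  have hlcf : 0 ≤ Real.log (cf g) := Real.log_nonneg hcf
  have hlpS : 0 ≤ Real.log pS := Real.log_nonneg hpS1
  have hc10 : 0 ≤ c1 := by rw [hc1]; linarith
  obtain ⟨cY, hcY⟩ : ∃ cY : ℝ, cY = 1 + ∑ i ∈ range (dq + 1), |(q.coeff i : ℝ)| := ⟨_, rfl⟩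
  have hcY1 : 1 ≤ cY := by
    have : 0 ≤ ∑ i ∈ range (dq + 1), |(q.coeff i : ℝ)| := sum_nonneg fun _ _ => abs_nonneg _
    rw [hcY]; linarith
  have hlcY : 0 ≤ Real.log cY := Real.log_nonneg hcY1
  obtain ⟨l3, hl3⟩ : ∃ l3 : ℝ, l3 = Real.log (m3.natAbs : ℝ) := ⟨_, rfl⟩
  have hl30 : 0 ≤ l3 := by rw [hl3]; exact Real.log_natCast_nonneg _
  obtain ⟨C2, hC2⟩ : ∃ C2 : ℝ, C2 = 12 * c1 + l3 + 3 * k * c1 + Real.log cY + Real.log 2 := ⟨_, rfl⟩
  obtain ⟨C3, hC3⟩ : ∃ C3 : ℝ, C3 = 2 * l3 + 2 * Real.log (cf g) := ⟨_, rfl⟩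
  have hC30 : 0 ≤ C3 := by rw [hC3]; linarith
  obtain ⟨μ0, hμ0⟩ : ∃ μ0 : ℝ, μ0 = (C2 + θ * C3) / (γ * ε) := ⟨_, rfl⟩
  refine ⟨ε', max 2 (Real.exp μ0), hε'0, fun s t hst hG hM0 hr => ?_⟩
  have hM1 := mx_one hst
  have hMpos : 0 < mx s t := by linarith
  have ht : t ≠ 0 := by
    rintro rfl
    have hs : IsUnit s := isCoprime_zero_right.mp hst
    have h1 : |(s : ℝ)| = 1 := by
      rcases Int.isUnit_iff.mp hs with h1 | h1 <;> simp [h1]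
    have h2 : mx s 0 = 1 := by
      unfold mx
      rw [h1]
      simp
    have h3 := (le_max_left _ _).trans hM0
    linarith
  obtain ⟨A, hA⟩ : ∃ A : ℤ, A = fv (2 * n) a s t := ⟨_, rfl⟩
  obtain ⟨B, hB⟩ : ∃ B : ℤ, B = fv (3 * n) b s t := ⟨_, rfl⟩
  obtain ⟨G, hGd⟩ : ∃ G : ℤ, G = fv g.natDegree g s t := ⟨_, rfl⟩
  obtain ⟨Y, hYd⟩ : ∃ Y : ℤ, Y = fv dq q s t := ⟨_, rfl⟩
  have hbez := he2 s t ht
  have hY := hdisc s t ht
  obtain ⟨l1, l2⟩ := log_excess (S := S) hSp hst hG hr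
  have hcfG := fv_cf g s t hst
  rw [← hA, ← hB, ← hGd] at hbez
  rw [← hA, ← hB, ← hGd, ← hYd] at hY
  rw [← hGd] at hr hG l1 l2 hcfG
  rw [← hA, ← hB]
  obtain ⟨W, u, Q, hW, h4, h6, hQ, hu, hQ6, hcond⟩ := arith (S := S) (m3 := m3) hBad.1 hBad.2.1
    hBad.2.2.1 hBad.2.2.2.2 hlc hm2 hm3 hst ⟨g.natDegree, by rw [hGd]; exact fv_mod _ g s t⟩
    (by obtain ⟨X1, Y1, Z1, h1⟩ := hbez; exact ⟨e2, X1, Y1, Z1, h1⟩) hG hY
  refine ⟨W, u, hW, h4, h6, ?_⟩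
  rw [← hγ, ← hθ]
  have hH1 := H_one hW
  have hcWpos : (1 : ℝ) ≤ condW W := by exact_mod_cast condW_pos W
  rcases le_or_gt (θ - ε) 0 with hneg | hpos
  · exact (Real.rpow_le_one_of_one_le_of_nonpos hcWpos hneg).trans hH1
  -- sizes
  obtain ⟨μ, hμ⟩ : ∃ μ : ℝ, μ = Real.log (mx s t) := ⟨_, rfl⟩
  have hμ0' : 0 ≤ μ := by rw [hμ]; exact Real.log_nonneg hM1
  have hμ1 : μ0 ≤ μ := by
    rw [hμ]; exact (Real.le_log_iff_exp_le hMpos).mpr ((le_max_right _ _).trans hM0)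
  rw [← hpS, ← hμ, ← hγ] at l1
  rw [← hpS, ← hμ, ← hc1] at l2
  obtain ⟨m, hm⟩ : ∃ m : ℕ, m = G.natAbs := ⟨_, rfl⟩
  obtain ⟨d, hd⟩ : ∃ d : ℕ, d = d1 S m := ⟨_, rfl⟩
  rw [← hm] at hu hQ6 hcond l1 l2 hr
  rw [← hd] at hu hQ6
  have hm0 : m ≠ 0 := by rw [hm]; exact Int.natAbs_ne_zero.mpr hG
  have hmpos : (0 : ℝ) < m := by exact_mod_cast Nat.pos_of_ne_zero hm0
  have hdpos : 0 < d := by rw [hd]; exact d1_pos S m
  have hdR : (0 : ℝ) < d := by exact_mod_cast hdpos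
  have hdm : d ∣ m := by rw [hd]; exact d1_dvd S m
  have hXpos : (0 : ℝ) < (excess S m : ℝ) := by exact_mod_cast excess_pos S m
  have hrSpos : (0 : ℝ) < (rS S m : ℝ) := by exact_mod_cast rS_pos S m
  have hQR : (0 : ℝ) < Q := by exact_mod_cast hQ
  -- `log m`
  have elm : Real.log m ≤ Real.log (cf g) + γ * μ := by
    have h1 : (m : ℝ) ≤ cf g * mx s t ^ g.natDegree := by
      rw [hm, Nat.cast_natAbs, Int.cast_abs]; exact hcfG
    have h2 := Real.log_le_log hmpos h1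
    rw [Real.log_mul (by positivity) (by positivity), Real.log_pow, ← hμ, ← hγ] at h2
    exact h2
  have elm2 : (γ - ε') * μ ≤ Real.log m := by
    have h1 : (rd m : ℝ) ≤ m := by
      exact_mod_cast Nat.le_of_dvd (Nat.pos_of_ne_zero hm0) (Nat.prod_primeFactors_dvd m)
    have h2 := Real.log_le_log (by positivity) (hr.trans h1)
    rw [Real.log_rpow hMpos, ← hμ, ← hγ] at h2
    exact h2
  -- `log d`
  have eld : (γ - 2 * ε') * μ - 2 * c1 ≤ Real.log d := by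
    have h1 : Real.log (rS S m) ≤ Real.log d + Real.log (excess S m) := by
      rw [← Real.log_mul hdR.ne' hXpos.ne']
      refine Real.log_le_log hrSpos ?_
      rw [hd]
      exact_mod_cast rS_le_d1 S m
    have h2 : Real.log pS ≤ c1 := by rw [hc1]; linarith
    have h3 : (γ - 2 * ε') * μ = (γ - ε') * μ - ε' * μ := by ring
    linarith
  -- `log Q`
  have elQ : 6 * Real.log Q ≤ l3 + k * (2 * ε' * μ + 3 * c1) := by
    have h1 : ((Q ^ 6 : ℕ) : ℝ) ≤ ((m3.natAbs * (m / d) ^ k : ℕ) : ℝ) := by exact_mod_cast hQ6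
    have hmd : 0 < m / d := Nat.div_pos (Nat.le_of_dvd (Nat.pos_of_ne_zero hm0) hdm) hdpos
    have hm3p : 0 < m3.natAbs := Int.natAbs_pos.mpr hm3
    have h2 := Real.log_le_log (by positivity) h1
    push_cast [Nat.cast_div hdm hdR.ne'] at h2
    rw [Real.log_pow, Real.log_mul (by positivity) (by positivity), Real.log_pow,
      Real.log_div hmpos.ne' hdR.ne'] at h2
    have h3 : Real.log m - Real.log d ≤ 2 * ε' * μ + 3 * c1 := by
      have h4 : Real.log (cf g) ≤ c1 := by rw [hc1]; linarith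
      nlinarith
    have h5 : (k : ℝ) * (Real.log m - Real.log d) ≤ k * (2 * ε' * μ + 3 * c1) :=
      mul_le_mul_of_nonneg_left h3 (Nat.cast_nonneg _)
    have h6 : Real.log ((m3.natAbs : ℝ)) = Real.log (|m3| : ℤ) := by rw [Nat.cast_natAbs]
    have h7 : l3 = Real.log ((|m3| : ℤ) : ℝ) := by rw [hl3, h6]
    push_cast at h2 h7
    rw [h7]
    linarith
  -- the discriminant form
  obtain ⟨E, hE⟩ : ∃ E : ℝ, E = |((A ^ 3 - B ^ 2 : ℤ) : ℝ)| := ⟨_, rfl⟩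
  have hprodR : E * |(Y : ℝ)| = (m3.natAbs : ℝ) * (m : ℝ) ^ k := by
    have h1 := congrArg (fun z : ℤ => |(z : ℝ)|) hY
    simp only [Int.cast_mul, abs_mul, Int.cast_pow, abs_pow] at h1
    rw [hE, hm, Nat.cast_natAbs, Nat.cast_natAbs, Int.cast_abs, Int.cast_abs]
    exact h1
  have hm3R : (0 : ℝ) < (m3.natAbs : ℝ) := by exact_mod_cast Int.natAbs_pos.mpr hm3
  have hpp : 0 < E * |(Y : ℝ)| := by rw [hprodR]; positivity
  have hY0 : 0 < |(Y : ℝ)| := by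
    rcases eq_or_lt_of_le (abs_nonneg (Y : ℝ)) with h0 | h0
    · rw [← h0, mul_zero] at hpp
      exact absurd hpp (lt_irrefl _)
    · exact h0
  have hE0 : 0 < E := by
    rcases eq_or_lt_of_le (show 0 ≤ E by rw [hE]; exact abs_nonneg _) with h0 | h0
    · rw [← h0, zero_mul] at hpp
      exact absurd hpp (lt_irrefl _)
    · exact h0
  have elY : Real.log |(Y : ℝ)| ≤ Real.log cY + dq * μ := by
    have h1 : |(Y : ℝ)| ≤ cY * mx s t ^ dq := by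
      rw [hYd, hcY]
      refine (fv_le dq q s t).trans ?_
      show _ * mx s t ^ dq ≤ _
      refine mul_le_mul_of_nonneg_right (by linarith) (by positivity)
    have h2 := Real.log_le_log hY0 h1
    rw [Real.log_mul (by positivity) (by positivity), Real.log_pow, ← hμ] at h2
    exact h2
  have elE : (6 * (n : ℝ) - k * ε') * μ - Real.log cY ≤ Real.log E := by
    have h1 := congrArg Real.log hprodR
    rw [Real.log_mul hE0.ne' hY0.ne', Real.log_mul hm3R.ne' (by positivity), Real.log_pow,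
      ← hl3] at h1
    have h2 : (6 : ℝ) * n + dq = k * γ := by rw [hγ]; exact_mod_cast hdeg
    have h3 : (k : ℝ) * ((γ - ε') * μ) ≤ k * Real.log m :=
      mul_le_mul_of_nonneg_left elm2 (Nat.cast_nonneg _)
    have h4 : (6 * (n : ℝ) - k * ε') * μ = k * ((γ - ε') * μ) - dq * μ := by
      linear_combination μ * h2
    linarith
  -- the height
  obtain ⟨H, hH⟩ : ∃ H : ℝ, H = max (|(W.c₄ : ℝ)| ^ 3) ((W.c₆ : ℝ) ^ 2) := ⟨_, rfl⟩
  have hu0 : (0 : ℝ) < (d : ℝ) / Q := by positivity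
  have huR : (d : ℝ) / Q ≤ (u : ℝ) := by
    have : (((d : ℚ) / Q : ℚ) : ℝ) ≤ (u : ℝ) := by exact_mod_cast hu
    push_cast at this
    exact this
  have huE : (u : ℝ) ^ 6 * E ≤ 2 * H := by
    have h4R : (W.c₄ : ℝ) = (u : ℝ) ^ 2 * A := by exact_mod_cast h4
    have h6R : (W.c₆ : ℝ) = (u : ℝ) ^ 3 * B := by exact_mod_cast h6
    have h1 : (u : ℝ) ^ 6 * E = |(W.c₄ : ℝ) ^ 3 - (W.c₆ : ℝ) ^ 2| := by
      rw [h4R, h6R, hE]
      have h2 : ((u : ℝ) ^ 2 * A) ^ 3 - ((u : ℝ) ^ 3 * B) ^ 2 =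
          (u : ℝ) ^ 6 * ((A ^ 3 - B ^ 2 : ℤ) : ℝ) := by push_cast; ring
      rw [h2, abs_mul, abs_of_nonneg (by positivity : (0 : ℝ) ≤ (u : ℝ) ^ 6)]
    rw [h1]
    refine (abs_sub _ _).trans ?_
    rw [abs_pow, abs_of_nonneg (sq_nonneg (W.c₆ : ℝ))]
    have h2 := le_max_left (|(W.c₄ : ℝ)| ^ 3) ((W.c₆ : ℝ) ^ 2)
    have h3 := le_max_right (|(W.c₄ : ℝ)| ^ 3) ((W.c₆ : ℝ) ^ 2)
    rw [hH]
    linarith
  have hHpos : 0 < H := by rw [hH]; linarith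
  have elH : 6 * (Real.log d - Real.log Q) + Real.log E - Real.log 2 ≤ Real.log H := by
    have h1 : ((d : ℝ) / Q) ^ 6 * E ≤ 2 * H :=
      (mul_le_mul_of_nonneg_right (pow_le_pow_left₀ hu0.le huR 6) hE0.le).trans huE
    have h2 := Real.log_le_log (by positivity) h1
    rw [Real.log_mul (by positivity) hE0.ne', Real.log_pow, Real.log_div hdR.ne' hQR.ne',
      Real.log_mul (by norm_num) hHpos.ne'] at h2
    push_cast at h2
    linarith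
  -- the conductor
  have elN : Real.log (condW W) ≤ C3 + 2 * γ * μ := by
    have h1 : ((condW W : ℕ) : ℝ) ≤ (((m3.natAbs * m) ^ 2 : ℕ) : ℝ) := by exact_mod_cast hcond
    have h2 := Real.log_le_log (by linarith) h1
    have h3 : Real.log ((((m3.natAbs * m) ^ 2 : ℕ)) : ℝ) = 2 * (l3 + Real.log m) := by
      rw [Nat.cast_pow, Nat.cast_mul, Real.log_pow, Real.log_mul hm3R.ne' hmpos.ne', hl3]
      push_cast
      ring
    rw [h3] at h2
    rw [hC3]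
    linarith
  rw [← hH, ← Real.log_le_log_iff (by positivity) hHpos, Real.log_rpow (by linarith)]
  have f1 : (θ - ε) * Real.log (condW W) ≤ (θ - ε) * (C3 + 2 * γ * μ) :=
    mul_le_mul_of_nonneg_left elN hpos.le
  have f2 : (θ - ε) * C3 ≤ θ * C3 := mul_le_mul_of_nonneg_right (by linarith) hC30
  have f3 : C2 + θ * C3 ≤ γ * ε * μ := by
    rw [hμ0, div_le_iff₀ (by positivity)] at hμ1
    linarith
  have f4 : (θ - ε) * (2 * γ * μ) = (6 * γ + 6 * n) * μ - 2 * (γ * ε * μ) := by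
    linear_combination μ * hθγ
  have f5 : (12 + 3 * (k : ℝ)) * ε' * μ = γ * ε * μ := by rw [hε'k]
  have f7 : (θ - ε) * (C3 + 2 * γ * μ) = (θ - ε) * C3 + (θ - ε) * (2 * γ * μ) := by ring
  have f8 : 6 * ((γ - 2 * ε') * μ - 2 * c1) - (l3 + k * (2 * ε' * μ + 3 * c1)) +
      ((6 * (n : ℝ) - k * ε') * μ - Real.log cY) - Real.log 2 =
      (6 * γ + 6 * n) * μ - (12 + 3 * (k : ℝ)) * ε' * μ - C2 := by rw [hC2]; ring
  linarith

end Pool.Agent.Y679.Md
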