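import Pool.Agent.Y679.Md.Cnt
import Pool.Agent.Y679.Md.Lower
import Pool.Agent.Y421.SZ.Count

/-! All elliptic curves over `ℚ` as a one-parameter family with twists (helper679). -/

set_option autoImplicit false

namespace Pool.Agent.Y679.Md

open Finset Polynomial
open Pool.Agent.H39R3 (GMin condW)
open Pool.Agent.Y670.RD
open Pool.Agent.Y679.Kf (rd rd_pos)

noncomputable def aJ : ℤ[X] := -(X * (1727 * X + 1728))
noncomputable def bJ : ℤ[X] := X * (1727 * X + 1728) ^ 2
noncomputable def gJ : ℤ[X] := X * (1727 * X + 1728) * (X + 1)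

theorem aJ_eq : aJ = -(1727 * X ^ 2) - 1728 * X := by unfold aJ; ring
theorem bJ_eq : bJ = 2982529 * X ^ 3 + 5968512 * X ^ 2 + 2985984 * X := by unfold bJ; ring
theorem gJ_eq : gJ = 1727 * X ^ 3 + 3455 * X ^ 2 + 1728 * X := by unfold gJ; ring

theorem dJ_eq : aJ ^ 3 - bJ ^ 2 = gJ * (-(1728 * X * (1727 * X + 1728) ^ 2)) := by
  unfold aJ bJ gJ; ring

theorem gJ_deg : gJ.natDegree = 3 := by
  rw [gJ_eq]; compute_degree!

theorem toQ_gJ : toQ gJ = C (1727 : ℚ) * ((X - C 0) * (X - C (-1)) * (X - C (-1728 / 1727))) := by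
  unfold toQ gJ
  simp only [Polynomial.map_mul, Polynomial.map_add, Polynomial.map_X, Polynomial.map_ofNat,
    Polynomial.map_one]
  have e : (1728 : ℚ[X]) = 1727 * C (1728 / 1727) := by
    have : (1727 : ℚ[X]) = C 1727 := rfl
    rw [this, ← C_mul]
    have h2 : (1728 : ℚ[X]) = C 1728 := rfl
    rw [h2]
    congr 1
    norm_num
  have e1 : (C (1727 : ℚ) : ℚ[X]) = 1727 := rfl
  have e2 : (C (-1728 / 1727 : ℚ) : ℚ[X]) = - C (1728 / 1727) := by
    rw [← C_neg]; congr 1; norm_num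
  rw [e, e1, e2, C_0, C_neg, C_1]
  ring

theorem gJ_splits : (toQ gJ).Splits := by
  rw [toQ_gJ]
  exact (Splits.C _).mul (((Splits.X_sub_C _).mul (Splits.X_sub_C _)).mul (Splits.X_sub_C _))

theorem gJ_sqf : Squarefree (toQ gJ) := by
  rw [toQ_gJ]
  have h1 : IsCoprime (X - C (0 : ℚ)) (X - C (-1)) :=
    isCoprime_X_sub_C_of_isUnit_sub (by rw [isUnit_iff_ne_zero]; norm_num)
  have h2 : IsCoprime (X - C (0 : ℚ)) (X - C (-1728 / 1727)) :=
    isCoprime_X_sub_C_of_isUnit_sub (by rw [isUnit_iff_ne_zero]; norm_num)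
  have h3 : IsCoprime (X - C (-1 : ℚ)) (X - C (-1728 / 1727)) :=
    isCoprime_X_sub_C_of_isUnit_sub (by rw [isUnit_iff_ne_zero]; norm_num)
  have h4 : ((X - C (0 : ℚ)) * (X - C (-1)) * (X - C (-1728 / 1727))).Separable :=
    ((separable_X_sub_C).mul (separable_X_sub_C) h1).mul separable_X_sub_C (h2.mul_left h3)
  have h5 := h4.squarefree
  have hu : IsUnit (C (1727 : ℚ)) := isUnit_C.mpr (by rw [isUnit_iff_ne_zero]; norm_num)
  intro x hx
  exact h5 x ((hu.dvd_mul_left).mp hx)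

theorem famJ : Fam 1 aJ bJ gJ where
  hn := le_rfl
  ha := by rw [aJ_eq]; compute_degree
  hb := by rw [bJ_eq]; compute_degree
  hD := by
    have : aJ ^ 3 - bJ ^ 2 = -(8900630063424 * X ^ 6) - 35617981684032 * X ^ 5 -
        53450173624320 * X ^ 4 - 35648922451968 * X ^ 3 - 8916100448256 * X ^ 2 := by
      unfold aJ bJ; ring
    rw [this]
    compute_degree!
  hiso := by
    intro x y h
    have h1 := congrArg (fun P => Polynomial.eval 1 P) h
    have h2 := congrArg (fun P => Polynomial.eval (-1) P) h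
    simp only [aJ, bJ, eval_mul, eval_C, eval_pow, eval_neg, eval_X, eval_add, eval_ofNat] at h1 h2
    norm_num at h1 h2
    omega
  hmin := by
    rintro π hπ ⟨h1, -⟩
    have h2 : toQ aJ ∣ toQ gJ := by
      refine ⟨-(X + 1), ?_⟩
      unfold toQ aJ gJ
      simp only [Polynomial.map_mul, Polynomial.map_add, Polynomial.map_X, Polynomial.map_ofNat,
        Polynomial.map_one, Polynomial.map_neg]
      ring
    have h3 : π * π ∣ toQ gJ := by
      rw [← sq]; exact h1.trans h2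
    exact hπ.not_isUnit (gJ_sqf π h3)
  hsq := gJ_sqf
  hgD := by
    rw [dJ_eq]
    unfold toQ
    rw [Polynomial.map_mul]
    exact dvd_mul_right _ _
  hDg := by
    refine ⟨3, C (-1 / 1728) * X * (X + 1) ^ 2, ?_⟩
    unfold toQ aJ bJ gJ
    simp only [Polynomial.map_mul, Polynomial.map_add, Polynomial.map_X, Polynomial.map_ofNat,
      Polynomial.map_one, Polynomial.map_neg, Polynomial.map_sub, Polynomial.map_pow]
    have e : (C (-1 / 1728 : ℚ) : ℚ[X]) * 1728 = -1 := by
      have : (1728 : ℚ[X]) = C 1728 := rfl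
      rw [this, ← C_mul]
      have h2 : (-1 : ℚ[X]) = C (-1) := by simp
      rw [h2]
      congr 1
      norm_num
    have e' : (X * (1727 * X + 1728) * (X + 1) : ℚ[X]) ^ 3 =
        -(C (-1 / 1728 : ℚ) * 1728) * ((X * (1727 * X + 1728) * (X + 1)) ^ 3) := by
      rw [e]; ring
    rw [e']
    ring

theorem aJ_eq' : aJ = C (-1727) * X ^ 2 + C (-1728) * X := by
  unfold aJ; simp only [map_neg, map_ofNat]; ring

theorem bJ_eq' : bJ = C 2982529 * X ^ 3 + C 5968512 * X ^ 2 + C 2985984 * X := by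
  unfold bJ; simp only [map_ofNat]; ring

theorem gJ_eq' : gJ = C 1727 * X ^ 3 + C 3455 * X ^ 2 + C 1728 * X := by
  unfold gJ; simp only [map_ofNat]; ring

theorem fv_aJ (x y : ℤ) : fv (2 * 1) aJ x y = -(x * (1727 * x + 1728 * y)) := by
  unfold fv
  rw [aJ_eq']
  simp only [coeff_add, coeff_C_mul, coeff_X_pow, coeff_X, sum_range_succ, sum_range_zero]
  norm_num
  ring

theorem fv_bJ (x y : ℤ) : fv (3 * 1) bJ x y = x * (1727 * x + 1728 * y) ^ 2 := by
  unfold fv
  rw [bJ_eq']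
  simp only [coeff_add, coeff_C_mul, coeff_X_pow, coeff_X, sum_range_succ, sum_range_zero]
  norm_num
  ring

theorem fv_gJ (x y : ℤ) : fv gJ.natDegree gJ x y = x * (1727 * x + 1728 * y) * (x + y) := by
  rw [gJ_deg]
  unfold fv
  rw [gJ_eq']
  simp only [coeff_add, coeff_C_mul, coeff_X_pow, coeff_X, sum_range_succ, sum_range_zero]
  norm_num
  ring

end Pool.Agent.Y679.Md
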