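import Pool.Agent.Y679.Md.Upp
import Pool.Agent.Y679.Md.Gm

/-! The exponent is attained by a quadratic twist of every good fibre (helper679). -/

set_option autoImplicit false

namespace Pool.Agent.Y679.Md

open Finset Polynomial
open Pool.Agent.H925R.Szpiro (D IsMin condS)
open Pool.Agent.H39R3 (GMin condW shortW shortW_c4 shortW_c6 shortW_Δ)
open Pool.Agent.Y670.RD
open Pool.Agent.Y679.Kf (rd rd_pos)

/-- the discriminant form divides a power of the form of the bad fibres -/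
theorem disc_pow {n : ℕ} {a b g : ℤ[X]} (h : Fam n a b g) :
    ∃ (m3 : ℤ) (k dq : ℕ) (q : ℤ[X]), m3 ≠ 0 ∧ 6 * n + dq = k * g.natDegree ∧
      ∀ s t : ℤ, t ≠ 0 → (fv (2 * n) a s t ^ 3 - fv (3 * n) b s t ^ 2) * fv dq q s t =
        m3 * fv g.natDegree g s t ^ k := by
  obtain ⟨k, hk⟩ := h.hDg
  have hk' : toQ (a ^ 3 - b ^ 2) ∣ toQ (g ^ k) := by
    unfold toQ at hk ⊢
    rw [Polynomial.map_pow (n := k)]
    exact hk
  obtain ⟨m3, q, hm3, hq⟩ := clr_dvd hk'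
  have hg0 : g ≠ 0 := by
    rintro rfl
    have := h.dav
    simp at this
  have hne : C m3 * g ^ k ≠ 0 := mul_ne_zero (C_ne_zero.mpr hm3) (pow_ne_zero _ hg0)
  have hq0 : q ≠ 0 := by
    rintro rfl
    rw [mul_zero] at hq
    exact hne hq
  have hD0 : a ^ 3 - b ^ 2 ≠ 0 := by
    intro h0
    rw [h0, zero_mul] at hq
    exact hne hq
  have hdeg : 6 * n + q.natDegree = k * g.natDegree := by
    have h1 := congrArg Polynomial.natDegree hq
    rw [natDegree_C_mul hm3, natDegree_pow, natDegree_mul hD0 hq0, h.hD] at h1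
    exact h1.symm
  refine ⟨m3, k, q.natDegree, q, hm3, hdeg, fun s t ht => ?_⟩
  have ht' : (t : ℚ) ≠ 0 := by exact_mod_cast ht
  have hv := congrArg (fun P => aeval ((s : ℚ) / t) P) hq
  simp only [map_mul, map_sub, map_pow, aeval_C] at hv
  have hm : (algebraMap ℤ ℚ) m3 = (m3 : ℚ) := rfl
  rw [hm] at hv
  have key : (((fv (2 * n) a s t ^ 3 - fv (3 * n) b s t ^ 2) * fv q.natDegree q s t : ℤ) : ℚ) =
      ((m3 * fv g.natDegree g s t ^ k : ℤ) : ℚ) := by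
    push_cast
    rw [fvq h.ha ht, fvq h.hb ht, fvq le_rfl ht, fvq le_rfl ht]
    have e1 : ((t : ℚ) ^ (2 * n)) ^ 3 = t ^ (6 * n) := by rw [← pow_mul]; congr 1; ring
    have e2 : ((t : ℚ) ^ (3 * n)) ^ 2 = t ^ (6 * n) := by rw [← pow_mul]; congr 1; ring
    have e3 : ((t : ℚ) ^ g.natDegree) ^ k = t ^ (6 * n) * t ^ q.natDegree := by
      rw [← pow_mul, ← pow_add, hdeg, mul_comm]
    rw [mul_pow, mul_pow, mul_pow, e1, e2, e3]
    linear_combination (-(t : ℚ) ^ (6 * n) * (t : ℚ) ^ q.natDegree) * hv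
  exact_mod_cast key

/-- the family is minimal at the primes dividing `G` once -/
theorem bez_p {A B G lc m2 s t : ℤ} {p : ℕ} (hp : p.Prime) (hst : IsCoprime s t)
    (hmod : ∃ k : ℕ, t ∣ G - lc * s ^ k)
    (hbez : ∃ (e : ℕ) (X Y Z : ℤ), m2 * t ^ e * G ^ 2 = X * (A * G) + Y * B + Z * G ^ 3)
    (hlc : ¬ (p : ℤ) ∣ lc) (hm2 : ¬ (p : ℤ) ∣ m2) (hpG : (p : ℤ) ∣ G) (hA : (p : ℤ) ^ 2 ∣ A)
    (hB : (p : ℤ) ^ 3 ∣ B) : (p : ℤ) ^ 2 ∣ G := by
  have hpr : Prime (p : ℤ) := Nat.prime_iff_prime_int.mp hp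
  have hpt : ¬ (p : ℤ) ∣ t := by
    intro ht
    obtain ⟨k, hk⟩ := hmod
    have h1 : (p : ℤ) ∣ lc * s ^ k := by
      have : lc * s ^ k = G - (G - lc * s ^ k) := by ring
      rw [this]
      exact dvd_sub hpG (ht.trans hk)
    rcases hpr.dvd_or_dvd h1 with h2 | h2
    · exact hlc h2
    · have h3 := hpr.dvd_of_dvd_pow h2
      exact hpr.not_isUnit (hst.isUnit_of_dvd' h3 ht)
  have hcop : ∀ k : ℤ, (¬ (p : ℤ) ∣ k) → ∀ j : ℕ, IsCoprime ((p : ℤ) ^ j) k := fun k hk j =>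
    (hpr.irreducible.coprime_iff_not_dvd.mpr hk).pow_left
  obtain ⟨e, X, Y, Z, he⟩ := hbez
  have h4 : (p : ℤ) ^ 3 ∣ m2 * t ^ e * G ^ 2 := by
    rw [he]
    refine dvd_add (dvd_add ?_ (hB.mul_left _)) ?_
    · refine Dvd.dvd.mul_left ?_ _
      calc (p : ℤ) ^ 3 = (p : ℤ) ^ 2 * p := by ring
        _ ∣ A * G := mul_dvd_mul hA hpG
    · exact (pow_dvd_pow_of_dvd hpG 3).mul_left _
  have h5 : ¬ (p : ℤ) ∣ m2 * t ^ e := by
    intro h6
    rcases hpr.dvd_or_dvd h6 with h7 | h7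
    · exact hm2 h7
    · exact hpt (hpr.dvd_of_dvd_pow h7)
  have h6 : (p : ℤ) ^ 3 ∣ G ^ 2 := (hcop _ h5 3).dvd_of_dvd_mul_left h4
  obtain ⟨G1, hG1⟩ := hpG
  rw [hG1] at h6 ⊢
  have h7 : (p : ℤ) ^ 2 * p ∣ (p : ℤ) ^ 2 * G1 ^ 2 := by
    calc (p : ℤ) ^ 2 * p = (p : ℤ) ^ 3 := by ring
      _ ∣ ((p : ℤ) * G1) ^ 2 := h6
      _ = _ := by ring
  have h8 := (mul_dvd_mul_iff_left (pow_ne_zero 2 hpr.ne_zero)).mp h7
  have h9 := hpr.dvd_of_dvd_pow h8
  calc (p : ℤ) ^ 2 = p * p := by ring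
    _ ∣ p * G1 := mul_dvd_mul_left _ h9

/-- the primes outside `S` dividing `m` exactly once -/
def d1 (S : Finset ℕ) (m : ℕ) : ℕ :=
  ∏ p ∈ (m.primeFactors \ S).filter (fun p => m.factorization p = 1), p

theorem d1_prime {S : Finset ℕ} {m : ℕ} {p : ℕ} (hp : p.Prime) (h : p ∣ d1 S m) :
    p ∈ m.primeFactors ∧ p ∉ S ∧ m.factorization p = 1 := by
  unfold d1 at h
  rw [hp.prime.dvd_finsetProd_iff] at h
  obtain ⟨q, hq, hpq⟩ := h
  rw [mem_filter, mem_sdiff] at hq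
  have hqp := Nat.prime_of_mem_primeFactors hq.1.1
  rw [(Nat.prime_dvd_prime_iff_eq hp hqp).mp hpq]
  exact ⟨hq.1.1, hq.1.2, hq.2⟩

theorem d1_pos (S : Finset ℕ) (m : ℕ) : 0 < d1 S m := by
  unfold d1
  exact prod_pos fun p hp => (Nat.prime_of_mem_primeFactors (mem_sdiff.mp (mem_filter.mp hp).1).1).pos

theorem d1_sqf (S : Finset ℕ) (m : ℕ) : Squarefree (d1 S m) := by
  unfold d1
  refine Finset.squarefree_prod_of_pairwise_isCoprime ?_ ?_
  · intro p hp q hq hpq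
    have h1 := Nat.prime_of_mem_primeFactors (mem_sdiff.mp (mem_filter.mp hp).1).1
    have h2 := Nat.prime_of_mem_primeFactors (mem_sdiff.mp (mem_filter.mp hq).1).1
    exact Nat.coprime_iff_isRelPrime.mp ((Nat.coprime_primes h1 h2).mpr hpq)
  · intro p hp
    exact (Nat.prime_of_mem_primeFactors (mem_sdiff.mp (mem_filter.mp hp).1).1).squarefree

theorem d1_dvd (S : Finset ℕ) (m : ℕ) : d1 S m ∣ m := by
  unfold d1
  refine Finset.prod_primes_dvd m ?_ ?_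
  · intro p hp
    exact (Nat.prime_of_mem_primeFactors (mem_sdiff.mp (mem_filter.mp hp).1).1).prime
  · intro p hp
    exact Nat.dvd_of_mem_primeFactors (mem_sdiff.mp (mem_filter.mp hp).1).1

theorem rS_le_d1 (S : Finset ℕ) (m : ℕ) : rS S m ≤ d1 S m * excess S m := by
  unfold rS d1 excess
  rw [← prod_filter_mul_prod_filter_not (m.primeFactors \ S) (fun p => m.factorization p = 1)
    (fun p => p)]
  refine Nat.mul_le_mul_left _ ?_
  refine le_trans (b := ∏ p ∈ (m.primeFactors \ S).filter (fun p => ¬ m.factorization p = 1),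
    p ^ (m.factorization p - 1)) ?_ ?_
  · refine prod_le_prod' fun p hp => ?_
    rw [mem_filter, mem_sdiff] at hp
    have hpp := Nat.prime_of_mem_primeFactors hp.1.1
    have h1 : 1 ≤ m.factorization p := by
      rw [Nat.mem_primeFactors] at hp
      exact (hp.1.1.1.dvd_iff_one_le_factorization hp.1.1.2.2).mp hp.1.1.2.1
    have h2 := hp.2
    calc p = p ^ 1 := (pow_one p).symm
      _ ≤ p ^ (m.factorization p - 1) := Nat.pow_le_pow_right hpp.pos (by omega)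
  · exact prod_le_prod_of_subset_of_one_le' (filter_subset _ _) fun p hp _ =>
      Nat.one_le_pow _ _ (Nat.prime_of_mem_primeFactors (mem_sdiff.mp hp).1).pos

end Pool.Agent.Y679.Md
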