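import Pool.Agent.Y679.Md.Lo

/-! The exponent is attained by a quadratic twist of every good fibre: arithmetic (helper679). -/

set_option autoImplicit false

namespace Pool.Agent.Y679.Md

open Finset Polynomial
open Pool.Agent.H925R.Szpiro (D IsMin condS)
open Pool.Agent.H39R3 (GMin condW shortW shortW_c4 shortW_c6 shortW_Δ)
open Pool.Agent.Y670.RD
open Pool.Agent.Y679.Kf (rd rd_pos)

theorem parity {N v1 v2 d Q : ℕ} (hN : N ≠ 0) (hv1 : v1 ≠ 0) (hv2 : v2 ≠ 0) (hd : d ≠ 0)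
    (hQ : Q ≠ 0) (h : N * v2 ^ 2 = 36 * v1 ^ 2 * d * Q) {p : ℕ} (hp : p.Prime) (h5 : 5 ≤ p) :
    N.factorization p + 2 * v2.factorization p =
      2 * v1.factorization p + d.factorization p + Q.factorization p := by
  have h1 := congrArg (fun x => x.factorization p) h
  have h36 : Nat.factorization 36 p = 0 := by
    refine Nat.factorization_eq_zero_of_not_dvd ?_
    intro hd
    have h2 : p ∣ 6 ^ 2 := by norm_num; exact hd
    have h3 := hp.dvd_of_dvd_pow h2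
    have h4 : p ∣ 2 * 3 := h3
    rcases (Nat.Prime.dvd_mul hp).mp h4 with h | h
    · have := Nat.le_of_dvd (by norm_num) h; omega
    · have := Nat.le_of_dvd (by norm_num) h; omega
  rw [Nat.factorization_mul hN (pow_ne_zero _ hv2), Nat.factorization_mul (by positivity) hQ,
    Nat.factorization_mul (by positivity) hd, Nat.factorization_mul (by norm_num)
    (pow_ne_zero _ hv1), Nat.factorization_pow, Nat.factorization_pow] at h1
  simp only [Finsupp.add_apply, Finsupp.smul_apply, smul_eq_mul, h36] at h1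
  omega

theorem arith {A B G lc m2 m3 s t Y : ℤ} {k : ℕ} {S : Finset ℕ} (h2S : 2 ∈ S) (h3S : 3 ∈ S)
    (hlcS : lc.natAbs.primeFactors ⊆ S) (hm2S : m2.natAbs.primeFactors ⊆ S) (hlc : lc ≠ 0)
    (hm2 : m2 ≠ 0) (hm3 : m3 ≠ 0) (hst : IsCoprime s t) (hmod : ∃ k : ℕ, t ∣ G - lc * s ^ k)
    (hbez : ∃ (e : ℕ) (X Y Z : ℤ), m2 * t ^ e * G ^ 2 = X * (A * G) + Y * B + Z * G ^ 3)
    (hG : G ≠ 0) (hY : (A ^ 3 - B ^ 2) * Y = m3 * G ^ k) :
    ∃ (W : WeierstrassCurve ℤ) (u : ℚ) (Q : ℕ), GMin W ∧ (W.c₄ : ℚ) = u ^ 2 * A ∧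
      (W.c₆ : ℚ) = u ^ 3 * B ∧ 0 < Q ∧ (d1 S G.natAbs : ℚ) / Q ≤ u ∧
      Q ^ 6 ≤ m3.natAbs * (G.natAbs / d1 S G.natAbs) ^ k ∧
      condW W ≤ (m3.natAbs * G.natAbs) ^ 2 := by
  classical
  obtain ⟨m, hm⟩ : ∃ m : ℕ, m = G.natAbs := ⟨_, rfl⟩
  obtain ⟨d, hd⟩ : ∃ d : ℕ, d = d1 S m := ⟨_, rfl⟩
  rw [← hm, ← hd]
  have hm0 : m ≠ 0 := by rw [hm]; exact Int.natAbs_ne_zero.mpr hG
  have hdpos : 0 < d := by rw [hd]; exact d1_pos S m
  have hdm : d ∣ m := by rw [hd]; exact d1_dvd S m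
  have hdZ : (d : ℤ) ≠ 0 := by exact_mod_cast hdpos.ne'
  have hDG : m3 * G ^ k ≠ 0 := mul_ne_zero hm3 (pow_ne_zero _ hG)
  have hD0 : A ^ 3 - B ^ 2 ≠ 0 := by
    intro h0
    rw [h0, zero_mul] at hY
    exact hDG hY.symm
  -- the curve
  have hΔ0 : (shortW (27 * (d : ℤ) ^ 2 * A) (54 * (d : ℤ) ^ 3 * B)).Δ ≠ 0 := by
    rw [shortW_Δ]
    have : D (27 * (d : ℤ) ^ 2 * A) (54 * (d : ℤ) ^ 3 * B) =
        78732 * (d : ℤ) ^ 6 * (A ^ 3 - B ^ 2) := by
      unfold D; ring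
    rw [this]
    exact mul_ne_zero (by norm_num) (mul_ne_zero (mul_ne_zero (by norm_num) (pow_ne_zero _ hdZ)) hD0)
  obtain ⟨W, hW, v, hv0, h4, h6⟩ := gmin_ex _ hΔ0
  rw [shortW_c4] at h4
  rw [shortW_c6] at h6
  obtain ⟨u, hu⟩ : ∃ u : ℚ, u = 36 * v ^ 2 * d := ⟨_, rfl⟩
  have h4' : (W.c₄ : ℚ) = u ^ 2 * A := by
    rw [h4, hu]; push_cast; ring
  have h6' : (W.c₆ : ℚ) = u ^ 3 * B := by
    rw [h6, hu]; push_cast; ring
  have hdq : (0 : ℚ) < d := by exact_mod_cast hdpos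
  have hupos : 0 < u := by rw [hu]; positivity
  have hNpos : 0 < u.num := Rat.num_pos.mpr hupos
  obtain ⟨N, hN⟩ : ∃ N : ℕ, N = u.num.natAbs := ⟨_, rfl⟩
  have hNu : (N : ℤ) = u.num := by rw [hN]; exact Int.natAbs_of_nonneg hNpos.le
  have hN0 : N ≠ 0 := by rw [hN]; exact Int.natAbs_ne_zero.mpr hNpos.ne'
  obtain ⟨Q, hQ⟩ : ∃ Q : ℕ, Q = u.den := ⟨_, rfl⟩
  have hQ0 : 0 < Q := by rw [hQ]; exact u.den_pos
  have huQ : u * Q = N := by
    have h1 := Rat.mul_den_eq_num u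
    rw [hQ, h1]
    exact_mod_cast hNu.symm
  have hNQ : Nat.Coprime N Q := by
    have := u.reduced
    rw [hN, hQ]; exact this
  have hNQZ : IsCoprime (N : ℤ) (Q : ℤ) := Nat.isCoprime_iff_coprime.mpr hNQ
  have hea : W.c₄ * (Q : ℤ) ^ 2 = (N : ℤ) ^ 2 * A := by
    have h1 : ((W.c₄ * (Q : ℤ) ^ 2 : ℤ) : ℚ) = (((N : ℤ) ^ 2 * A : ℤ) : ℚ) := by
      push_cast
      rw [h4', ← huQ]; ring
    exact_mod_cast h1
  have heb : W.c₆ * (Q : ℤ) ^ 3 = (N : ℤ) ^ 3 * B := by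
    have h1 : ((W.c₆ * (Q : ℤ) ^ 3 : ℤ) : ℚ) = (((N : ℤ) ^ 3 * B : ℤ) : ℚ) := by
      push_cast
      rw [h6', ← huQ]; ring
    exact_mod_cast h1
  have hQA : (Q : ℤ) ^ 2 ∣ A := by
    have h1 : (Q : ℤ) ^ 2 ∣ (N : ℤ) ^ 2 * A := by rw [← hea]; exact dvd_mul_left _ _
    exact (hNQZ.symm.pow (m := 2) (n := 2)).dvd_of_dvd_mul_left h1
  have hQB : (Q : ℤ) ^ 3 ∣ B := by
    have h1 : (Q : ℤ) ^ 3 ∣ (N : ℤ) ^ 3 * B := by rw [← heb]; exact dvd_mul_left _ _
    exact (hNQZ.symm.pow (m := 3) (n := 3)).dvd_of_dvd_mul_left h1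
  -- `Q` and `d` are coprime
  have hQd : Nat.Coprime Q d := by
    refine Nat.coprime_of_dvd fun p hp hpQ hpd => ?_
    rw [hd] at hpd
    obtain ⟨g1, g2, g3⟩ := d1_prime hp hpd
    have hpQ' : (p : ℤ) ∣ (Q : ℤ) := by exact_mod_cast hpQ
    have hpG : (p : ℤ) ∣ G := by
      rw [Int.natCast_dvd, ← hm]; exact Nat.dvd_of_mem_primeFactors g1
    have h1 := bez_p hp hst hmod hbez (fun h => g2 (hlcS (mem_pf hlc hp h)))
      (fun h => g2 (hm2S (mem_pf hm2 hp h))) hpG ((pow_dvd_pow_of_dvd hpQ' 2).trans hQA)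
      ((pow_dvd_pow_of_dvd hpQ' 3).trans hQB)
    have h2 : p ^ 2 ∣ m := by
      rw [hm, ← Int.natCast_dvd]; push_cast; exact h1
    have h3 := (hp.pow_dvd_iff_le_factorization hm0).mp h2
    omega
  -- `Q ^ 6`
  have hQ6Z : (Q : ℤ) ^ 6 ∣ A ^ 3 - B ^ 2 := by
    refine dvd_sub ?_ ?_
    · have := pow_dvd_pow_of_dvd hQA 3
      rwa [← pow_mul] at this
    · have := pow_dvd_pow_of_dvd hQB 2
      rwa [← pow_mul] at this
  have hQ6 : Q ^ 6 ∣ m3.natAbs * m ^ k := by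
    have h1 : (Q : ℤ) ^ 6 ∣ m3 * G ^ k := by rw [← hY]; exact hQ6Z.mul_right _
    have h2 := Int.natAbs_dvd_natAbs.mpr h1
    rw [Int.natAbs_mul, Int.natAbs_pow, Int.natAbs_pow, Int.natAbs_natCast, ← hm] at h2
    exact h2
  obtain ⟨m', hm'⟩ := hdm
  have hmd : m / d = m' := Nat.div_eq_of_eq_mul_right hdpos hm'
  have hm'0 : m' ≠ 0 := by
    rintro rfl
    rw [mul_zero] at hm'
    exact hm0 hm'
  have hQ6' : Q ^ 6 ∣ m3.natAbs * m' ^ k := by
    rw [hm', mul_pow] at hQ6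
    have h1 : Q ^ 6 ∣ d ^ k * (m3.natAbs * m' ^ k) := by
      have e : m3.natAbs * (d ^ k * m' ^ k) = d ^ k * (m3.natAbs * m' ^ k) := by ring
      rwa [e] at hQ6
    exact (Nat.Coprime.pow 6 k hQd).dvd_of_dvd_mul_left h1
  have hm3n : m3.natAbs ≠ 0 := Int.natAbs_ne_zero.mpr hm3
  -- parity
  have hpar : ∀ p : ℕ, p.Prime → 5 ≤ p → N.factorization p + 2 * v.den.factorization p =
      2 * v.num.natAbs.factorization p + d.factorization p + Q.factorization p := by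
    intro p hp h5
    refine parity hN0 (Int.natAbs_ne_zero.mpr (Rat.num_ne_zero.mpr hv0)) v.den_nz hdpos.ne'
      hQ0.ne' ?_ hp h5
    have h1 : ((N * v.den ^ 2 : ℕ) : ℚ) = ((36 * v.num.natAbs ^ 2 * d * Q : ℕ) : ℚ) := by
      have h2 : ((v.num.natAbs : ℕ) : ℚ) ^ 2 = (v.num : ℚ) ^ 2 := by
        rw [Nat.cast_natAbs, Int.cast_abs, sq_abs]
      push_cast
      rw [h2, ← huQ, hu, ← Rat.mul_den_eq_num v]
      ring
    exact_mod_cast h1
  have hdN : d ∣ N := by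
    rw [hd]
    unfold d1
    refine Finset.prod_primes_dvd N ?_ ?_
    · intro p hp
      exact (Nat.prime_of_mem_primeFactors (mem_sdiff.mp (mem_filter.mp hp).1).1).prime
    · intro p hp
      have hpp := Nat.prime_of_mem_primeFactors (mem_sdiff.mp (mem_filter.mp hp).1).1
      have hpS := (mem_sdiff.mp (mem_filter.mp hp).1).2
      have hpd : p ∣ d := by rw [hd]; unfold d1; exact dvd_prod_of_mem _ hp
      have h1 := hpar p hpp (five_le h2S h3S hpp hpS)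
      have h2 : d.factorization p = 1 := by
        have h3 := (d1_sqf S m).natFactorization_le_one p
        rw [← hd] at h3
        have h4 := (hpp.dvd_iff_one_le_factorization hdpos.ne').mp hpd
        omega
      have h3 : Q.factorization p = 0 := by
        refine Nat.factorization_eq_zero_of_not_dvd fun hpQ => ?_
        have := Nat.dvd_gcd hpQ hpd
        rw [hQd] at this
        exact hpp.one_lt.ne' (Nat.dvd_one.mp this)
      rw [hpp.dvd_iff_one_le_factorization hN0]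
      omega
  refine ⟨W, u, Q, hW, h4', h6', hQ0, ?_, ?_, ?_⟩
  · rw [div_le_iff₀ (by exact_mod_cast hQ0), huQ]
    exact_mod_cast Nat.le_of_dvd (Nat.pos_of_ne_zero hN0) hdN
  · rw [hmd]
    exact Nat.le_of_dvd (Nat.pos_of_ne_zero (mul_ne_zero hm3n (pow_ne_zero _ hm'0))) hQ6'
  · -- the conductor
    have hmem : ∀ p ∈ W.Δ.natAbs.primeFactors.filter (fun p => 5 ≤ p),
        p ∈ (m3.natAbs * m).primeFactors := by
      intro p hp
      rw [mem_filter] at hp
      have hpp := Nat.prime_of_mem_primeFactors hp.1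
      have h5 := hp.2
      have hpr : Prime (p : ℤ) := Nat.prime_iff_prime_int.mp hpp
      rw [Nat.mem_primeFactors]
      refine ⟨hpp, ?_, mul_ne_zero hm3n hm0⟩
      by_contra hcon
      have n3 : ¬ p ∣ m3.natAbs * m ^ k := by
        intro h
        rcases (Nat.Prime.dvd_mul hpp).mp h with h | h
        · exact hcon (h.mul_right _)
        · exact hcon ((hpp.dvd_of_dvd_pow h).mul_left _)
      have nQ : ¬ p ∣ Q := fun h => n3 ((h.trans (dvd_pow_self Q (by norm_num))).trans hQ6)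
      have nQZ : ¬ (p : ℤ) ∣ (Q : ℤ) := fun h => nQ (by exact_mod_cast h)
      have nd : ¬ p ∣ d := by
        intro h
        refine hcon (Dvd.dvd.mul_left ?_ _)
        rw [hm']
        exact h.mul_right _
      have nD : ¬ (p : ℤ) ∣ A ^ 3 - B ^ 2 := by
        intro h
        apply n3
        have h1 : (p : ℤ) ∣ m3 * G ^ k := by rw [← hY]; exact h.mul_right _
        have h2 := Int.natAbs_dvd_natAbs.mpr h1
        rw [Int.natAbs_mul, Int.natAbs_pow, Int.natAbs_natCast, ← hm] at h2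
        exact h2
      have hrel : 1728 * W.Δ * (Q : ℤ) ^ 6 = (N : ℤ) ^ 6 * (A ^ 3 - B ^ 2) := by
        have h1 := W.c_relation
        calc 1728 * W.Δ * (Q : ℤ) ^ 6 = (W.c₄ * (Q : ℤ) ^ 2) ^ 3 - (W.c₆ * (Q : ℤ) ^ 3) ^ 2 := by
              rw [h1]; ring
          _ = _ := by rw [hea, heb]; ring
      have hpN : p ∣ N := by
        have h1 : (p : ℤ) ∣ (N : ℤ) ^ 6 * (A ^ 3 - B ^ 2) := by
          rw [← hrel]
          exact ((pf_dvd hp.1).mul_left _).mul_right _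
        rcases hpr.dvd_or_dvd h1 with h2 | h2
        · exact_mod_cast hpr.dvd_of_dvd_pow h2
        · exact absurd h2 nD
      have h1 := hpar p hpp h5
      rw [Nat.factorization_eq_zero_of_not_dvd nQ, Nat.factorization_eq_zero_of_not_dvd nd] at h1
      have h2 := (hpp.dvd_iff_one_le_factorization hN0).mp hpN
      have h3 : p ^ 2 ∣ N := (hpp.pow_dvd_iff_le_factorization hN0).mpr (by omega)
      have h4Z : (p : ℤ) ^ 2 ∣ (N : ℤ) := by exact_mod_cast h3
      have hcop : ∀ i j : ℕ, IsCoprime ((p : ℤ) ^ i) ((Q : ℤ) ^ j) := fun i j =>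
        (hpr.irreducible.coprime_iff_not_dvd.mpr nQZ).pow
      refine gmin_no hW hpp h5 ?_ ?_
      · refine (hcop 4 2).dvd_of_dvd_mul_right ?_
        rw [hea]
        refine Dvd.dvd.mul_right ?_ _
        have := pow_dvd_pow_of_dvd h4Z 2
        rwa [← pow_mul] at this
      · refine (hcop 6 3).dvd_of_dvd_mul_right ?_
        rw [heb]
        refine Dvd.dvd.mul_right ?_ _
        have := pow_dvd_pow_of_dvd h4Z 3
        rwa [← pow_mul] at this
    have h1 : condW W ≤ ∏ p ∈ (m3.natAbs * m).primeFactors, p ^ 2 := by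
      unfold condW
      refine le_trans (b := ∏ p ∈ W.Δ.natAbs.primeFactors.filter (fun p => 5 ≤ p), p ^ 2) ?_ ?_
      · refine prod_le_prod' fun p hp => ?_
        have hpp := Nat.prime_of_mem_primeFactors (mem_filter.mp hp).1
        split_ifs
        · exact le_rfl
        · exact Nat.le_self_pow (by norm_num) p
      · exact prod_le_prod_of_subset_of_one_le' hmem fun p hp _ =>
          Nat.one_le_pow _ _ (Nat.prime_of_mem_primeFactors hp).pos
    refine h1.trans ?_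
    rw [prod_pow]
    exact Nat.pow_le_pow_left (Nat.le_of_dvd (Nat.pos_of_ne_zero (mul_ne_zero hm3n hm0))
      (Nat.prod_primeFactors_dvd _)) 2

end Pool.Agent.Y679.Md
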