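import Pool.Agent.Y670.RD.Asm
import Pool.Agent.Y679.Kf.Wt

/-! The upper bound for all quadratic twists of a fibre at which the form of the bad fibres has a
large radical (helper679, after helper670's `Y670.RD.Asm`). -/

set_option autoImplicit false

namespace Pool.Agent.Y679.Md

open Finset Polynomial
open Pool.Agent.H925R.Szpiro (D IsMin condS)
open Pool.Agent.H39R3 (GMin condW cond_le condW_pos)
open Pool.Agent.Y670.RD
open Pool.Agent.Y679.Kf (rd rd_pos)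

/-- the radical outside `S` -/
def rS (S : Finset ℕ) (m : ℕ) : ℕ := ∏ p ∈ m.primeFactors \ S, p

theorem rS_pos (S : Finset ℕ) (m : ℕ) : 1 ≤ rS S m :=
  Nat.one_le_iff_ne_zero.mpr (prod_ne_zero_iff.mpr fun p hp =>
    (Nat.prime_of_mem_primeFactors (mem_sdiff.mp hp).1).ne_zero)

theorem rS_excess {S : Finset ℕ} {m : ℕ} (hm : m ≠ 0) : rS S m * excess S m ≤ m := by
  unfold rS
  rw [← gp_eq]
  unfold gp
  conv_rhs => rw [← Nat.prod_factorization_pow_eq_self hm,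
    Nat.prod_factorization_eq_prod_primeFactors]
  exact prod_le_prod_of_subset_of_one_le' sdiff_subset fun p hp _ =>
    Nat.one_le_pow _ _ (Nat.prime_of_mem_primeFactors hp).pos

theorem rd_le_rS (S : Finset ℕ) (hS : ∀ p ∈ S, p.Prime) (m : ℕ) : rd m ≤ (∏ p ∈ S, p) * rS S m := by
  unfold rd rS
  calc ∏ p ∈ m.primeFactors, p ≤ ∏ p ∈ S ∪ (m.primeFactors \ S), p := by
        refine prod_le_prod_of_subset_of_one_le' ?_ ?_
        · intro p hp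
          by_cases h : p ∈ S
          · exact mem_union_left _ h
          · exact mem_union_right _ (mem_sdiff.mpr ⟨hp, h⟩)
        · intro p hp _
          rcases mem_union.mp hp with h | h
          · exact (hS p h).one_le
          · exact (Nat.prime_of_mem_primeFactors (mem_sdiff.mp h).1).one_le
    _ = (∏ p ∈ S, p) * ∏ p ∈ m.primeFactors \ S, p := by
        rw [prod_union disjoint_sdiff]

theorem pS_pos (S : Finset ℕ) (hS : ∀ p ∈ S, p.Prime) : 1 ≤ ∏ p ∈ S, p :=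
  Nat.one_le_iff_ne_zero.mpr (prod_ne_zero_iff.mpr fun p hp => (hS p hp).ne_zero)

/-- the size of a point -/
noncomputable def mx (s t : ℤ) : ℝ := max |(s : ℝ)| |(t : ℝ)|

theorem mx_one {s t : ℤ} (hst : IsCoprime s t) : 1 ≤ mx s t := by
  unfold mx
  rcases eq_or_ne t 0 with ht | ht
  · have hs : IsUnit s := by rw [ht] at hst; exact isCoprime_zero_right.mp hst
    have : |(s : ℝ)| = 1 := by
      rcases Int.isUnit_iff.mp hs with h1 | h1 <;> simp [h1]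
    rw [this]
    exact le_max_left _ _
  · have : (1 : ℝ) ≤ |(t : ℝ)| := by
      have := Int.one_le_abs ht
      exact_mod_cast this
    exact this.trans (le_max_right _ _)

/-- the inequality for all twists -/
theorem key {n : ℕ} {a b g : ℤ[X]} (h : Fam n a b g) (S : Finset ℕ)
    (hSp : ∀ p ∈ S, p.Prime) {m1 m2 : ℤ} (hm1 : m1 ≠ 0) (hm2 : m2 ≠ 0)
    (hBad : BadS g.leadingCoeff m1 m2 S) (c δ : ℝ) (hc : 0 < c) (hδ0 : 0 < δ) :
    ∃ C : ℝ, 0 < C ∧ ∀ (a1 b1 N : ℤ) (Q : ℕ) (s t : ℤ) (c4 c6 : ℤ),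
      Dat a1 b1 (fv (2 * n) a s t) (fv (3 * n) b s t) N (fv g.natDegree g s t) g.leadingCoeff
        m1 m2 Q s t →
      |(c4 : ℝ)| ≤ 48 * |(a1 : ℝ)| → |(c6 : ℝ)| ≤ 864 * |(b1 : ℝ)| →
      c * mx s t ^ ((n : ℝ) / ((n : ℝ) / (g.natDegree : ℝ) + δ)) ≤
        (rS S (fv g.natDegree g s t).natAbs : ℝ) →
      max (|(c4 : ℝ)| ^ 3) ((c6 : ℝ) ^ 2) ≤
        C * ((condS a1 b1 : ℝ) * (excess S (fv g.natDegree g s t).natAbs : ℝ)) ^
          (3 + 3 * (n : ℝ) / (g.natDegree : ℝ) + 12 * δ) := by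
  classical
  have hdav := h.dav
  have hn := h.hn
  have hn1 : (1 : ℝ) ≤ n := by exact_mod_cast hn
  have hγpos : (0 : ℝ) < g.natDegree := by
    have : ((n + 2 : ℕ) : ℝ) ≤ g.natDegree := by exact_mod_cast hdav
    push_cast at this
    linarith
  obtain ⟨lam, hlam⟩ : ∃ lam : ℝ, lam = (n : ℝ) / (g.natDegree : ℝ) := ⟨_, rfl⟩
  have hlam0 : 0 < lam := by rw [hlam]; positivity
  have hlam1 : lam ≤ 1 := by
    rw [hlam, div_le_one hγpos]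
    have : ((n + 2 : ℕ) : ℝ) ≤ g.natDegree := by exact_mod_cast hdav
    push_cast at this
    linarith
  have hg0 : g ≠ 0 := by
    rintro rfl
    simp at hdav
  have hlc : g.leadingCoeff ≠ 0 := leadingCoeff_ne_zero.mpr hg0
  have h2S : 2 ∈ S := hBad.1
  have h3S : 3 ∈ S := hBad.2.1
  obtain ⟨cA, hcA⟩ : ∃ cA : ℝ, cA = ∑ i ∈ range (2 * n + 1), |(a.coeff i : ℝ)| := ⟨_, rfl⟩
  obtain ⟨cB, hcB⟩ : ∃ cB : ℝ, cB = ∑ i ∈ range (3 * n + 1), |(b.coeff i : ℝ)| := ⟨_, rfl⟩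
  have hcA0 : 0 ≤ cA := by rw [hcA]; exact sum_nonneg fun _ _ => abs_nonneg _
  have hcB0 : 0 ≤ cB := by rw [hcB]; exact sum_nonneg fun _ _ => abs_nonneg _
  obtain ⟨κ, hκ⟩ : ∃ κ : ℝ, κ = 6 * c ^ (-(lam + δ)) := ⟨_, rfl⟩
  have hκ0 : 0 < κ := by rw [hκ]; positivity
  refine ⟨((48 * 27 * cA) ^ 3 + (864 * 54 * cB) ^ 2 + 1) * κ ^ 6, by positivity,
    fun a1 b1 N Q s t c4 c6 hd h4 h6 hr1 => ?_⟩
  obtain ⟨A, hA⟩ : ∃ A : ℤ, A = fv (2 * n) a s t := ⟨_, rfl⟩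
  obtain ⟨B, hB⟩ : ∃ B : ℤ, B = fv (3 * n) b s t := ⟨_, rfl⟩
  obtain ⟨G, hG⟩ : ∃ G : ℤ, G = fv g.natDegree g s t := ⟨_, rfl⟩
  rw [← hA, ← hB, ← hG] at hd
  rw [← hG] at hr1 ⊢
  obtain ⟨M, hM⟩ : ∃ M : ℝ, M = mx s t := ⟨_, rfl⟩
  have hM1 : 1 ≤ M := by rw [hM]; exact mx_one hd.hst
  have hM0 : 0 < M := by linarith
  rw [← hM, ← hlam] at hr1
  have hG0 : G ≠ 0 := hd.hG
  -- the factors
  obtain ⟨R1, hR1⟩ : ∃ R1 : ℕ, R1 = ∏ p ∈ (G.natAbs.primeFactors \ S).filter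
    (fun p : ℕ => (p : ℤ) ∣ D a1 b1), p := ⟨_, rfl⟩
  obtain ⟨P1, hP1⟩ : ∃ P1 : ℕ, P1 = ∏ p ∈ (G.natAbs.primeFactors \ S).filter
    (fun p : ℕ => ¬ (p : ℤ) ∣ D a1 b1), p := ⟨_, rfl⟩
  obtain ⟨X1, hX1⟩ : ∃ X1 : ℕ, X1 = excess S G.natAbs := ⟨_, rfl⟩
  have hsplit : rS S G.natAbs = R1 * P1 := by
    unfold rS
    rw [hR1, hP1, prod_filter_mul_prod_filter_not]
  rw [hsplit] at hr1
  push_cast at hr1
  obtain ⟨hPQ, hPX⟩ := hd.piQ hlc hm1 hm2 hBad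
  rw [← hP1] at hPQ hPX
  rw [← hX1] at hPX ⊢
  have hNR := hd.NR h2S h3S hlam0.le hlam1
  rw [← hR1] at hNR
  have hRc := hd.Rcond h2S h3S
  rw [← hR1] at hRc
  have hprime : ∀ p ∈ G.natAbs.primeFactors \ S, 1 ≤ p := fun p hp =>
    (Nat.prime_of_mem_primeFactors (mem_sdiff.mp hp).1).one_le
  have hR11 : 1 ≤ R1 := by
    rw [hR1]
    exact Nat.one_le_iff_ne_zero.mpr (prod_ne_zero_iff.mpr fun p hp => by
      have := hprime p (mem_filter.mp hp).1; omega)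
  have hP11 : 1 ≤ P1 := by
    rw [hP1]
    exact Nat.one_le_iff_ne_zero.mpr (prod_ne_zero_iff.mpr fun p hp => by
      have := hprime p (mem_filter.mp hp).1; omega)
  have hX11 : 1 ≤ X1 := by rw [hX1]; exact excess_pos _ _
  have hK1 : 1 ≤ condS a1 b1 := hR11.trans hRc
  have hR1R : (1 : ℝ) ≤ R1 := by exact_mod_cast hR11
  have hP1R : (1 : ℝ) ≤ P1 := by exact_mod_cast hP11
  have hX1R : (1 : ℝ) ≤ X1 := by exact_mod_cast hX11
  have hK1R : (1 : ℝ) ≤ condS a1 b1 := by exact_mod_cast hK1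
  have hr2 : c * M ^ ((n : ℝ) / (lam + δ)) ≤ (R1 : ℝ) * P1 * X1 :=
    hr1.trans (le_mul_of_one_le_right (by positivity) hX1R)
  have hfin := fin_real (n := n) (K := condS a1 b1) (X := X1) (P := P1) (R := R1)
    (Nn := (N.natAbs : ℝ)) (c := c) (M := M) (lam := lam) (δ := δ) hK1R hX1R hP1R hR1R
    (Nat.cast_nonneg _) hc hM1 hlam0.le hlam1 hδ0 hNR (by exact_mod_cast hRc)
    (by exact_mod_cast hPX) hr2
  rw [← hκ] at hfin
  -- `V`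
  have hQ0 : (0 : ℝ) < Q := by exact_mod_cast hd.hQ
  obtain ⟨V, hV⟩ : ∃ V : ℝ, V = (N.natAbs : ℝ) / Q * M ^ n := ⟨_, rfl⟩
  have hV0 : 0 ≤ V := by rw [hV]; positivity
  have hPQR : (P1 : ℝ) ≤ Q := by exact_mod_cast Nat.le_of_dvd hd.hQ hPQ
  obtain ⟨E, hE⟩ : ∃ E : ℝ, E = (condS a1 b1 : ℝ) * X1 := ⟨_, rfl⟩
  rw [← hE] at hfin ⊢
  have hE1 : 1 ≤ E := by rw [hE]; nlinarith
  have hVle : V ≤ κ * E ^ ((1 + lam) / 2 + 2 * δ) := by
    refine le_trans ?_ hfin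
    rw [hV]
    refine mul_le_mul_of_nonneg_right ?_ (by positivity)
    exact div_le_div_of_nonneg_left (Nat.cast_nonneg _) (by linarith) hPQR
  have hV6 : V ^ 6 ≤ κ ^ 6 * E ^ (3 + 3 * (n : ℝ) / (g.natDegree : ℝ) + 12 * δ) := by
    calc V ^ 6 ≤ (κ * E ^ ((1 + lam) / 2 + 2 * δ)) ^ 6 := pow_le_pow_left₀ hV0 hVle 6
      _ = κ ^ 6 * E ^ (3 + 3 * (n : ℝ) / (g.natDegree : ℝ) + 12 * δ) := by
          rw [mul_pow, ← Real.rpow_natCast (E ^ ((1 + lam) / 2 + 2 * δ)) 6,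
            ← Real.rpow_mul (by linarith)]
          congr 2
          rw [hlam]
          push_cast
          ring
  -- `a1`, `b1`
  have hNabs : (N.natAbs : ℝ) = |(N : ℝ)| := by rw [Nat.cast_natAbs, Int.cast_abs]
  have hAle : |(A : ℝ)| ≤ cA * M ^ (2 * n) := by rw [hA, hcA, hM]; exact fv_le (2 * n) a s t
  have hBle : |(B : ℝ)| ≤ cB * M ^ (3 * n) := by rw [hB, hcB, hM]; exact fv_le (3 * n) b s t
  have ha1 : |(a1 : ℝ)| ≤ 27 * cA * V ^ 2 := by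
    have h1 : (a1 : ℝ) * (Q : ℝ) ^ 2 = 27 * (N : ℝ) ^ 2 * A := by exact_mod_cast hd.ea
    have h2 : |(a1 : ℝ)| * (Q : ℝ) ^ 2 = 27 * |(N : ℝ)| ^ 2 * |(A : ℝ)| := by
      have := congrArg abs h1
      rwa [abs_mul, abs_mul, abs_mul, abs_pow, abs_pow, abs_of_pos hQ0,
        abs_of_pos (by norm_num : (0 : ℝ) < 27)] at this
    have h3 : |(a1 : ℝ)| = 27 * (|(N : ℝ)| / Q) ^ 2 * |(A : ℝ)| := by
      rw [div_pow]
      field_simp
      linarith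
    rw [h3, hV, hNabs]
    calc 27 * (|(N : ℝ)| / Q) ^ 2 * |(A : ℝ)| ≤ 27 * (|(N : ℝ)| / Q) ^ 2 * (cA * M ^ (2 * n)) := by
          gcongr
      _ = _ := by rw [mul_pow, ← pow_mul, mul_comm n 2]; ring
  have hb1 : |(b1 : ℝ)| ≤ 54 * cB * V ^ 3 := by
    have h1 : (b1 : ℝ) * (Q : ℝ) ^ 3 = 54 * (N : ℝ) ^ 3 * B := by exact_mod_cast hd.eb
    have h2 : |(b1 : ℝ)| * (Q : ℝ) ^ 3 = 54 * |(N : ℝ)| ^ 3 * |(B : ℝ)| := by
      have := congrArg abs h1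
      rwa [abs_mul, abs_mul, abs_mul, abs_pow, abs_pow, abs_of_pos hQ0,
        abs_of_pos (by norm_num : (0 : ℝ) < 54)] at this
    have h3 : |(b1 : ℝ)| = 54 * (|(N : ℝ)| / Q) ^ 3 * |(B : ℝ)| := by
      rw [div_pow]
      field_simp
      linarith
    rw [h3, hV, hNabs]
    calc 54 * (|(N : ℝ)| / Q) ^ 3 * |(B : ℝ)| ≤ 54 * (|(N : ℝ)| / Q) ^ 3 * (cB * M ^ (3 * n)) := by
          gcongr
      _ = _ := by rw [mul_pow, ← pow_mul, mul_comm n 3]; ring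
  have hEp : 0 < E ^ (3 + 3 * (n : ℝ) / (g.natDegree : ℝ) + 12 * δ) :=
    Real.rpow_pos_of_pos (by linarith) _
  have hc4le : |(c4 : ℝ)| ^ 3 ≤ (48 * 27 * cA) ^ 3 * V ^ 6 := by
    have h1 : |(c4 : ℝ)| ≤ (48 * 27 * cA) * V ^ 2 := by linarith
    calc |(c4 : ℝ)| ^ 3 ≤ ((48 * 27 * cA) * V ^ 2) ^ 3 := pow_le_pow_left₀ (abs_nonneg _) h1 3
      _ = _ := by ring
  have hc6le : (c6 : ℝ) ^ 2 ≤ (864 * 54 * cB) ^ 2 * V ^ 6 := by
    have h1 : |(c6 : ℝ)| ≤ (864 * 54 * cB) * V ^ 3 := by linarith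
    rw [← sq_abs]
    calc |(c6 : ℝ)| ^ 2 ≤ ((864 * 54 * cB) * V ^ 3) ^ 2 := pow_le_pow_left₀ (abs_nonneg _) h1 2
      _ = _ := by ring
  have hfin2 : ∀ z x' y' : ℝ, 0 ≤ x' → 0 ≤ y' → z ≤ x' * V ^ 6 →
      z ≤ ((x' + y' + 1) * κ ^ 6) * E ^ (3 + 3 * (n : ℝ) / (g.natDegree : ℝ) + 12 * δ) := by
    intro z x' y' hx' hy' hz
    calc z ≤ x' * V ^ 6 := hz
      _ ≤ x' * (κ ^ 6 * E ^ (3 + 3 * (n : ℝ) / (g.natDegree : ℝ) + 12 * δ)) :=
          mul_le_mul_of_nonneg_left hV6 hx'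
      _ ≤ (x' + y' + 1) * (κ ^ 6 * E ^ (3 + 3 * (n : ℝ) / (g.natDegree : ℝ) + 12 * δ)) :=
          mul_le_mul_of_nonneg_right (by linarith) (by positivity)
      _ = _ := by ring
  apply max_le
  · exact hfin2 _ _ _ (by positivity) (by positivity) hc4le
  · rw [add_comm ((48 * 27 * cA) ^ 3)]
    exact hfin2 _ _ _ (by positivity) (by positivity) hc6le

end Pool.Agent.Y679.Md
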